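import Pool.Agent.W_MP_daea50_lc.LusinNovikov

set_option autoImplicit false
set_option linter.style.haveILetI false

open Set Function Topology MeasureTheory TopologicalSpace

namespace Pool.Agent.W_MP_daea50_lc

/-- Lusin-Novikov for Borel maps with countable fibres. -/
theorem small_univ_of_measurable {X Z : Type*} [MeasurableSpace X] [StandardBorelSpace X]
    [MeasurableSpace Z] [StandardBorelSpace Z] {f : X → Z} (hf : Measurable f)
    (hfib : ∀ x, {y | f y = f x}.Countable) : Small f (univ : Set X) := by
  letI := upgradeStandardBorel Z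
  obtain ⟨t, hb, hp⟩ := StandardBorelSpace.polish (α := X)
  obtain ⟨t', ht', hc, hp'⟩ := hf.exists_continuous
  have hb' : @BorelSpace X t' _ := by
    refine @BorelSpace.mk X t' _ ?_
    rw [hb.measurable_eq]
    exact (borel_eq_borel_of_le hp' hp ht').symm
  letI : TopologicalSpace X := t'
  haveI : PolishSpace X := hp'
  haveI : BorelSpace X := hb'
  letI := upgradeIsCompletelyMetrizable X
  exact small_univ_of_continuous hc hfib

/-- A countable Borel equivalence relation is the union of the graphs of countably many Borel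
functions. -/
theorem exists_generating_functions {X : Type*} [MeasurableSpace X] [StandardBorelSpace X]
    (E : X → X → Prop) (hE : Equivalence E) (hB : MeasurableSet {p : X × X | E p.1 p.2})
    (hc : ∀ x, {y | E x y}.Countable) :
    ∃ g : ℕ → X → X, (∀ n, Measurable (g n)) ∧ ∀ x y, E x y ↔ ∃ n, g n x = y := by
  classical
  let P : Set (X × X) := {p : X × X | E p.1 p.2}
  haveI : StandardBorelSpace P := hB.standardBorel
  let f : P → X := fun p => p.1.1
  have hf : Measurable f := measurable_fst.comp measurable_subtype_coe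
  have hfib : ∀ x, {y | f y = f x}.Countable := by
    intro x
    refine MapsTo.countable_of_injOn (t := {y | E (f x) y}) (f := fun p : P => p.1.2) ?_ ?_
      (hc (f x))
    · intro y hy
      have h1 : E y.1.1 y.1.2 := y.2
      have h2 : y.1.1 = f x := hy
      change E (f x) y.1.2
      rw [← h2]
      exact h1
    · intro y hy z hz h
      have h2 : y.1.1 = f x := hy
      have h3 : z.1.1 = f x := hz
      exact Subtype.ext (Prod.ext (h2.trans h3.symm) h)
  obtain ⟨B, hB1, hB2, hB3⟩ := small_univ_of_measurable hf hfib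
  let g : ℕ → X → X := fun n x => if h : ∃ p ∈ B n, f p = x then (h.choose).1.2 else x
  have hg1 : ∀ n (p : P), p ∈ B n → g n (f p) = p.1.2 := by
    intro n p hp
    have h : ∃ q ∈ B n, f q = f p := ⟨p, hp, rfl⟩
    have : g n (f p) = (h.choose).1.2 := dif_pos h
    rw [this, hB2 n h.choose_spec.1 hp h.choose_spec.2]
  have hg2 : ∀ n x, (¬ ∃ p ∈ B n, f p = x) → g n x = x := fun n x h => dif_neg h
  refine ⟨g, fun n S hS => ?_, fun x y => ⟨fun h => ?_, ?_⟩⟩
  · have e : g n ⁻¹' S = f '' (B n ∩ (fun p : P => p.1.2) ⁻¹' S) ∪ (S \ f '' (B n)) := by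
      ext x
      constructor
      · intro hx
        by_cases h : ∃ p ∈ B n, f p = x
        · obtain ⟨p, hp, rfl⟩ := h
          left
          refine ⟨p, ⟨hp, ?_⟩, rfl⟩
          have : g n (f p) ∈ S := hx
          rwa [hg1 n p hp] at this
        · right
          have : g n x ∈ S := hx
          rw [hg2 n x h] at this
          exact ⟨this, h⟩
      · rintro (⟨p, ⟨hp, hpS⟩, rfl⟩ | ⟨hx, h⟩)
        · change g n (f p) ∈ S
          rw [hg1 n p hp]
          exact hpS
        · change g n x ∈ S
          rwa [hg2 n x h]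
    rw [e]
    have hs : Measurable (fun p : P => p.1.2) := measurable_snd.comp measurable_subtype_coe
    refine MeasurableSet.union ?_ (hS.diff ?_)
    · exact ((hB1 n).inter (hs hS)).image_of_measurable_injOn hf
        ((hB2 n).mono inter_subset_left)
    · exact (hB1 n).image_of_measurable_injOn hf (hB2 n)
  · obtain ⟨n, hn⟩ := mem_iUnion.1 (hB3 (mem_univ (⟨(x, y), h⟩ : P)))
    exact ⟨n, hg1 n ⟨(x, y), h⟩ hn⟩
  · rintro ⟨n, rfl⟩
    by_cases h : ∃ p ∈ B n, f p = x
    · obtain ⟨p, hp, rfl⟩ := h
      rw [hg1 n p hp]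
      exact p.2
    · rw [hg2 n x h]
      exact hE.refl x

/-- Countably many Borel self-maps of a standard Borel space, together with a Borel map to a second
countable space, are simultaneously continuous for a suitable compatible Polish topology. -/
theorem exists_polish_continuous {X : Type*} [MeasurableSpace X] [StandardBorelSpace X]
    (g : ℕ → X → X) (hg : ∀ i, Measurable (g i))
    {Z : Type*} [TopologicalSpace Z] [SecondCountableTopology Z] [MeasurableSpace Z]
    [OpensMeasurableSpace Z] (φ : X → Z) (hφ : Measurable φ) :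
    ∃ t : TopologicalSpace X, @PolishSpace X t ∧ @BorelSpace X t _ ∧
      (∀ i, @Continuous X X t t (g i)) ∧ @Continuous X Z t _ φ := by
  classical
  obtain ⟨t0, hb0, hp0⟩ := StandardBorelSpace.polish (α := X)
  have hborel : ∀ t t' : TopologicalSpace X, @PolishSpace X t → @BorelSpace X t _ →
      @PolishSpace X t' → t' ≤ t → @BorelSpace X t' _ := by
    intro t t' hp hb hp' hle
    refine @BorelSpace.mk X t' _ ?_
    rw [hb.measurable_eq]
    exact (borel_eq_borel_of_le hp' hp hle).symm
  -- one step
  have step : ∀ t : TopologicalSpace X, @PolishSpace X t ∧ @BorelSpace X t _ →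
      ∃ t' : TopologicalSpace X, (@PolishSpace X t' ∧ @BorelSpace X t' _) ∧ t' ≤ t ∧
        (∀ i, @Continuous X X t' t (g i)) ∧ @Continuous X Z t' _ φ := by
    rintro t ⟨hp, hb⟩
    have h1 : ∀ i, ∃ t' : TopologicalSpace X, t' ≤ t ∧ @Continuous X X t' t (g i) ∧
        @PolishSpace X t' := by
      intro i
      letI := t
      exact (hg i).exists_continuous
    have h2 : ∃ t' : TopologicalSpace X, t' ≤ t ∧ @Continuous X Z t' _ φ ∧
        @PolishSpace X t' := by
      letI := t
      exact hφ.exists_continuous
    choose m hm1 hm2 hm3 using h1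
    obtain ⟨m', hm'1, hm'2, hm'3⟩ := h2
    obtain ⟨t', ht'1, ht'2, ht'3⟩ := @PolishSpace.exists_polishSpace_forall_le X (Option ℕ) _ t hp
      (fun i => i.elim m' m) (by
        intro i
        cases i
        · exact hm'1
        · exact hm1 _) (by
        intro i
        cases i
        · exact hm'3
        · exact hm3 _)
    refine ⟨t', ⟨ht'3, hborel t t' hp hb ht'3 ht'2⟩, ht'2, fun i => ?_, ?_⟩
    · exact continuous_le_dom (ht'1 (some i)) (hm2 i)
    · exact continuous_le_dom (ht'1 none) hm'2
  obtain ⟨s, hs1, hs2⟩ := exists_seq_step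
    (fun _ (t : TopologicalSpace X) => @PolishSpace X t ∧ @BorelSpace X t _)
    (fun _ t t' => t' ≤ t ∧ (∀ i, @Continuous X X t' t (g i)) ∧ @Continuous X Z t' _ φ)
    ⟨t0, hp0, hb0⟩ (fun _ t ht => step t ht)
  have hanti : ∀ n, s n ≤ s 0 := by
    intro n
    induction n with
    | zero => exact le_rfl
    | succ n ih => exact (hs2 n).1.trans ih
  have hP : @PolishSpace X (⨅ n, s n) := PolishSpace.iInf ⟨0, hanti⟩ (fun n => (hs1 n).1)
  refine ⟨⨅ n, s n, hP, ?_, fun i => ?_, ?_⟩
  · exact hborel (s 0) _ (hs1 0).1 (hs1 0).2 hP (iInf_le _ 0)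
  · rw [continuous_iInf_rng]
    intro n
    exact continuous_le_dom (iInf_le _ (n + 1)) ((hs2 n).2.1 i)
  · exact continuous_le_dom (iInf_le _ 1) (hs2 0).2.2

end Pool.Agent.W_MP_daea50_lc
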