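import Pool.Agent.W_MP_daea50_lc.LusinNovikov

set_option autoImplicit false
set_option linter.style.haveILetI false

open Set Function Topology MeasureTheory TopologicalSpace

namespace Pool.Agent.W_MP_daea50_lc

section Marker

variable {X : Type*} [MeasurableSpace X] [StandardBorelSpace X]

theorem measurableSet_infinite_class {E : X → X → Prop} {g : ℕ → X → X}
    (hg : ∀ n, Measurable (g n)) (hgE : ∀ x y, E x y ↔ ∃ n, g n x = y) {B : Set X}
    (hB : MeasurableSet B) : MeasurableSet {x | {y | E x y ∧ y ∈ B}.Infinite} := by
  classical
  have key : ∀ x, {y | E x y ∧ y ∈ B}.Infinite ↔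
      ∀ N, ∃ n, g n x ∈ B ∧ ∀ k ∈ Finset.range N, g n x ≠ g k x := by
    intro x
    constructor
    · intro h N
      have hf : ((Finset.range N).image (fun k => g k x) : Set X).Finite :=
        Finset.finite_toSet _
      obtain ⟨y, ⟨hy1, hy2⟩, hy3⟩ := (h.sdiff hf).nonempty
      obtain ⟨n, rfl⟩ := (hgE x y).1 hy1
      refine ⟨n, hy2, fun k hk heq => hy3 ?_⟩
      rw [heq]
      exact Finset.mem_coe.2 (Finset.mem_image_of_mem _ hk)
    · intro h hfin
      choose! k hk using fun y (hy : E x y) => (hgE x y).1 hy
      obtain ⟨N, hN⟩ : ∃ N, ∀ y ∈ {y | E x y ∧ y ∈ B}, k y < N := by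
        obtain ⟨N, hN⟩ := (hfin.image k).bddAbove
        exact ⟨N + 1, fun y hy => Nat.lt_succ_of_le (hN (mem_image_of_mem k hy))⟩
      obtain ⟨n, hn1, hn2⟩ := h N
      have hE' : E x (g n x) := (hgE _ _).2 ⟨n, rfl⟩
      have := hN (g n x) ⟨hE', hn1⟩
      exact hn2 _ (Finset.mem_range.2 this) (hk _ hE').symm
  have e : {x | {y | E x y ∧ y ∈ B}.Infinite} =
      ⋂ N : ℕ, ⋃ n : ℕ, (g n ⁻¹' B ∩ ⋂ k ∈ Finset.range N, {x | g n x = g k x}ᶜ) := by
    ext x
    rw [mem_ofPred_eq, key x]
    simp only [mem_iInter, mem_iUnion, mem_inter_iff, mem_preimage, mem_compl_iff, mem_ofPred_eq]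
  rw [e]
  refine MeasurableSet.iInter fun N => MeasurableSet.iUnion fun n =>
    ((hg n) hB).inter (Finset.measurableSet_biInter _ fun k _ => ?_)
  exact (measurableSet_eq_fun (hg n) (hg k)).compl

/-- Marker lemma: an aperiodic countable Borel equivalence relation admits a Borel map to `ℕ`
taking every value infinitely often on every class. -/
theorem exists_marker {E : X → X → Prop} (hE : Equivalence E) {g : ℕ → X → X}
    (hg : ∀ n, Measurable (g n)) (hgE : ∀ x y, E x y ↔ ∃ n, g n x = y)
    (hinf : ∀ x, {y | E x y}.Infinite) :
    ∃ j : X → ℕ, Measurable j ∧ ∀ x m, {y | E x y ∧ j y = m}.Infinite := by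
  classical
  obtain ⟨c, hc, hci⟩ := MeasurableSpace.measurable_injection_nat_bool_of_countablySeparated X
  -- cylinders
  have hcyl : ∀ (n : ℕ) (s : List Bool), MeasurableSet {y | PiNat.res (c y) n = s} := by
    intro n
    induction n with
    | zero =>
      intro s
      simp only [PiNat.res_zero]
      exact MeasurableSet.const _
    | succ n ih =>
      intro s
      cases s with
      | nil =>
        simp only [PiNat.res_succ, reduceCtorEq]
        exact MeasurableSet.const _
      | cons a s =>
        have : {y | PiNat.res (c y) (n + 1) = a :: s} =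
            {y | c y n = a} ∩ {y | PiNat.res (c y) n = s} := by
          ext y
          simp [PiNat.res_succ]
        rw [this]
        refine MeasurableSet.inter ?_ (ih s)
        exact ((measurable_pi_apply n).comp hc) (measurableSet_singleton a)
  -- leftmost branch
  let P : ℕ → X → List Bool := fun n => Nat.rec (fun _ => [])
    (fun k Pk x => if {y | E x y ∧ PiNat.res (c y) (k + 1) = false :: Pk x}.Infinite
      then false :: Pk x else true :: Pk x) n
  have hP0 : ∀ x, P 0 x = [] := fun _ => rfl
  have hPs : ∀ n x, P (n + 1) x = if {y | E x y ∧ PiNat.res (c y) (n + 1) = false :: P n x}.Infinite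
      then false :: P n x else true :: P n x := fun _ _ => rfl
  have hPinv : ∀ n x x', E x x' → P n x = P n x' := by
    intro n
    induction n with
    | zero => intro x x' _; rfl
    | succ n ih =>
      intro x x' h
      have hcl : ∀ y, E x y ↔ E x' y :=
        fun y => ⟨fun h1 => hE.trans (hE.symm h) h1, fun h1 => hE.trans h h1⟩
      rw [hPs, hPs, ih x x' h]
      simp only [hcl]
  have hPinf : ∀ n x, {y | E x y ∧ PiNat.res (c y) n = P n x}.Infinite := by
    intro n
    induction n with
    | zero =>
      intro x
      simpa [hP0] using hinf x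
    | succ n ih =>
      intro x
      by_cases h : {y | E x y ∧ PiNat.res (c y) (n + 1) = false :: P n x}.Infinite
      · rw [hPs, if_pos h]
        exact h
      · rw [hPs, if_neg h]
        have hun : {y | E x y ∧ PiNat.res (c y) n = P n x} ⊆
            {y | E x y ∧ PiNat.res (c y) (n + 1) = false :: P n x} ∪
            {y | E x y ∧ PiNat.res (c y) (n + 1) = true :: P n x} := by
          rintro y ⟨h1, h2⟩
          cases hb : c y n
          · left
            exact ⟨h1, by rw [PiNat.res_succ, hb, h2]⟩
          · right
            exact ⟨h1, by rw [PiNat.res_succ, hb, h2]⟩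
        rcases Set.infinite_union.1 ((ih x).mono hun) with h' | h'
        · exact absurd h' h
        · exact h'
  have hPm : ∀ n s, MeasurableSet {x | P n x = s} := by
    intro n
    induction n with
    | zero =>
      intro s
      simp only [hP0]
      exact MeasurableSet.const _
    | succ n ih =>
      intro s
      cases s with
      | nil =>
        have : {x | P (n + 1) x = []} = ∅ := by
          ext x
          simp only [mem_ofPred_eq, mem_empty_iff_false, iff_false, hPs]
          split_ifs <;> simp
        rw [this]
        exact MeasurableSet.empty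
      | cons a s =>
        have hI : MeasurableSet {x | {y | E x y ∧
            y ∈ {y | PiNat.res (c y) (n + 1) = false :: s}}.Infinite} :=
          measurableSet_infinite_class hg hgE (hcyl _ _)
        cases a
        · have : {x | P (n + 1) x = false :: s} = {x | P n x = s} ∩ {x | {y | E x y ∧
            y ∈ {y | PiNat.res (c y) (n + 1) = false :: s}}.Infinite} := by
            ext x
            simp only [mem_ofPred_eq, mem_inter_iff, hPs]
            split_ifs with h
            · simp only [List.cons.injEq, true_and]
              constructor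
              · rintro rfl
                exact ⟨rfl, h⟩
              · exact fun h => h.1
            · simp only [List.cons.injEq, Bool.true_eq_false, false_and, false_iff, not_and]
              rintro rfl
              exact h
          rw [this]
          exact (ih s).inter hI
        · have : {x | P (n + 1) x = true :: s} = {x | P n x = s} ∩ {x | {y | E x y ∧
            y ∈ {y | PiNat.res (c y) (n + 1) = false :: s}}.Infinite}ᶜ := by
            ext x
            simp only [mem_ofPred_eq, mem_inter_iff, hPs, mem_compl_iff]
            split_ifs with h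
            · simp only [List.cons.injEq, Bool.false_eq_true, false_and, false_iff, not_and,
                not_not]
              rintro rfl
              exact h
            · simp only [List.cons.injEq, true_and]
              constructor
              · rintro rfl
                exact ⟨rfl, h⟩
              · exact fun h => h.1
          rw [this]
          exact (ih s).inter hI.compl
  -- successive branches
  have hPtail : ∀ n x y, PiNat.res (c y) (n + 1) = P (n + 1) x → PiNat.res (c y) n = P n x := by
    intro n x y h
    rw [PiNat.res_succ, hPs] at h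
    split_ifs at h
    · exact (List.cons.inj h).2
    · exact (List.cons.inj h).2
  have hPle : ∀ m n x y, n ≤ m → PiNat.res (c y) m = P m x → PiNat.res (c y) n = P n x := by
    intro m n x y hnm
    induction m, hnm using Nat.le_induction with
    | base => exact id
    | succ m _ ih => exact fun h => ih (hPtail m x y h)
  -- level of a point
  let D : ℕ → Set X := fun n => {y | PiNat.res (c y) (n + 1) ≠ P (n + 1) y}
  have hD : ∀ n, MeasurableSet (D n) := by
    intro n
    have : D n = ⋃ s : List Bool, {y | P (n + 1) y = s} ∩ {y | PiNat.res (c y) (n + 1) = s}ᶜ := by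
      ext y
      simp only [D, mem_ofPred_eq, mem_iUnion, mem_inter_iff, mem_compl_iff, ne_eq, exists_eq_left']
    rw [this]
    exact MeasurableSet.iUnion fun s => (hPm (n + 1) s).inter (hcyl (n + 1) s).compl
  let N : X → ℕ := fun y => if h : ∃ n, y ∈ D n then Nat.find h else 0
  have hNval : ∀ y k, N y = k ↔ ((y ∈ D k ∧ ∀ i < k, y ∉ D i) ∨ (k = 0 ∧ ∀ i, y ∉ D i)) := by
    intro y k
    by_cases h : ∃ n, y ∈ D n
    · have : N y = Nat.find h := dif_pos h
      rw [this, Nat.find_eq_iff]
      constructor
      · exact fun h => Or.inl h
      · rintro (h' | h')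
        · exact h'
        · exact absurd h (not_exists.2 h'.2)
    · have : N y = 0 := dif_neg h
      rw [this]
      push Not at h
      constructor
      · rintro rfl
        exact Or.inr ⟨rfl, h⟩
      · rintro (h' | h')
        · exact absurd h'.1 (h k)
        · exact h'.1.symm
  have hNm : Measurable N := by
    refine measurable_to_countable' fun k => ?_
    have : N ⁻¹' {k} = (D k ∩ ⋂ i ∈ Finset.range k, (D i)ᶜ) ∪ ({y | k = 0} ∩ ⋂ i, (D i)ᶜ) := by
      ext y
      simp only [mem_preimage, mem_singleton_iff, hNval, mem_union, mem_inter_iff, mem_iInter,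
        Finset.mem_range, mem_compl_iff, mem_ofPred_eq]
    rw [this]
    refine ((hD k).inter (Finset.measurableSet_biInter _ fun i _ => (hD i).compl)).union
      ((MeasurableSet.const _).inter (MeasurableSet.iInter fun i => (hD i).compl))
  -- the set of levels of a class
  let V : ℕ → X → Prop := fun m y => ∃ z, E y z ∧ N z = m
  have hVm : ∀ m, MeasurableSet {y | V m y} := by
    intro m
    have : {y | V m y} = ⋃ n, (g n) ⁻¹' (N ⁻¹' {m}) := by
      ext y
      simp only [V, mem_ofPred_eq, mem_iUnion, mem_preimage, mem_singleton_iff]
      constructor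
      · rintro ⟨z, hz, hN⟩
        obtain ⟨n, rfl⟩ := (hgE y z).1 hz
        exact ⟨n, hN⟩
      · rintro ⟨n, hn⟩
        exact ⟨g n y, (hgE _ _).2 ⟨n, rfl⟩, hn⟩
    rw [this]
    exact MeasurableSet.iUnion fun n => (hg n) (hNm (measurableSet_singleton m))
  have hVinv : ∀ m x y, E x y → (V m x ↔ V m y) := by
    intro m x y h
    exact ⟨fun ⟨z, hz, hN⟩ => ⟨z, hE.trans (hE.symm h) hz, hN⟩,
      fun ⟨z, hz, hN⟩ => ⟨z, hE.trans h hz, hN⟩⟩
  have hVinf : ∀ x, {m | V m x}.Infinite := by
    intro x hfin
    obtain ⟨M, hM⟩ := hfin.bddAbove
    have hsub : {y | E x y ∧ PiNat.res (c y) (M + 2) = P (M + 2) x} ⊆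
        {y | E x y ∧ ∀ n, PiNat.res (c y) n = P n x} := by
      rintro y ⟨h1, h2⟩
      refine ⟨h1, fun n => ?_⟩
      by_contra hne
      -- `y` has a level, which is at least `M + 1`
      have hex : ∃ n, y ∈ D n := by
        cases n with
        | zero => exact absurd rfl hne
        | succ n =>
          refine ⟨n, fun h => hne ?_⟩
          rw [hPinv (n + 1) x y h1]
          exact h
      have hNy : N y = Nat.find hex := dif_pos hex
      have hlt : M < N y := by
        rw [hNy, Nat.lt_find_iff]
        intro m hm hmD
        apply hmD
        rw [← hPinv (m + 1) x y h1]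
        exact hPle (M + 2) (m + 1) x y (by omega) h2
      have : N y ≤ M := hM ⟨y, h1, rfl⟩
      omega
    have hsing : {y | E x y ∧ ∀ n, PiNat.res (c y) n = P n x}.Subsingleton := by
      rintro y ⟨_, hy⟩ z ⟨_, hz⟩
      apply hci
      apply PiNat.res_injective
      funext n
      rw [hy n, hz n]
    exact hPinf (M + 2) x (hsing.finite.subset hsub)
  -- rank of the level
  let r : X → ℕ := fun y => Nat.count (fun m => V m y) (N y)
  have hcount : ∀ n, Measurable fun y => Nat.count (fun m => V m y) n := by
    intro n
    induction n with
    | zero =>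
      simp only [Nat.count_zero]
      exact measurable_const
    | succ n ih =>
      simp only [Nat.count_succ]
      exact ih.add (Measurable.ite (hVm n) measurable_const measurable_const)
  have hr : Measurable r := by
    refine measurable_to_countable' fun k => ?_
    have : r ⁻¹' {k} = ⋃ n, (N ⁻¹' {n} ∩ (fun y => Nat.count (fun m => V m y) n) ⁻¹' {k}) := by
      ext y
      simp only [r, mem_preimage, mem_singleton_iff, mem_iUnion, mem_inter_iff, exists_eq_left']
    rw [this]
    exact MeasurableSet.iUnion fun n => (hNm (measurableSet_singleton n)).inter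
      (hcount n (measurableSet_singleton k))
  refine ⟨fun y => (Nat.unpair (r y)).1, (measurable_from_top (f := fun n : ℕ => (Nat.unpair n).1)).comp hr, ?_⟩
  intro x m
  have hex : ∀ k, ∃ y, E x y ∧ r y = k := by
    intro k
    have h1 : V (Nat.nth (fun m => V m x) k) x := Nat.nth_mem_of_infinite (hVinf x) k
    obtain ⟨y, hy, hNy⟩ := h1
    refine ⟨y, hy, ?_⟩
    have h2 : (fun m => V m y) = fun m => V m x := by
      funext m
      exact propext (hVinv m x y hy).symm
    change Nat.count (fun m => V m y) (N y) = k
    rw [hNy]
    simp only [h2]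
    exact Nat.count_nth_of_infinite (hVinf x) k
  choose y hy1 hy2 using hex
  refine infinite_of_injective_forall_mem (f := fun k => y (Nat.pair m k)) ?_ ?_
  · intro k k' h
    have : r (y (Nat.pair m k)) = r (y (Nat.pair m k')) := congrArg r h
    rw [hy2, hy2] at this
    exact (Nat.pair_eq_pair.1 this).2
  · intro k
    refine ⟨hy1 _, ?_⟩
    simp [hy2]

end Marker

end Pool.Agent.W_MP_daea50_lc
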