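import Pool.Agent.W_MP_daea50_lc.LusinNovikov

set_option autoImplicit false
set_option linter.style.haveILetI false

open Set Function Topology MeasureTheory TopologicalSpace

namespace Pool.Agent.W_MP_daea50_lc

section Transversal

variable {X : Type*} [MetricSpace X] [CompleteSpace X] [SecondCountableTopology X]

/-- Mycielski-type construction: an equivalence relation with countable classes, given by countably
many continuous functions on an uncountable Polish space, has an uncountable closed set of pairwise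
inequivalent points. -/
theorem exists_closed_independent (hX : ¬ Countable X) (E : X → X → Prop) (hE : Equivalence E)
    (hc : ∀ x, {y | E x y}.Countable) (g : ℕ → X → X)
    (hg : ∀ n, Continuous (g n)) (hgE : ∀ x y, E x y ↔ ∃ n, g n x = y) :
    ∃ T : Set X, IsClosed T ∧ ¬ T.Countable ∧ ∀ x ∈ T, ∀ y ∈ T, E x y → x = y := by
  classical
  have hXu : ¬ (univ : Set X).Countable := by
    intro h
    exact hX (countable_univ_iff.1 h)
  obtain ⟨D, hD, ⟨d0, hd0⟩, -⟩ := exists_perfect_nonempty_of_isClosed_of_not_countable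
    (isClosed_univ (X := X)) hXu
  -- every relatively open nonempty piece of `D` is uncountable
  have hunc : ∀ x ∈ D, ∀ r : ℝ, 0 < r → ¬ (D ∩ Metric.ball x r).Countable := by
    intro x hx r hr hcount
    have hpf := hD.closure_nhds_inter x hx (Metric.mem_ball_self (half_pos hr))
      Metric.isOpen_ball
    obtain ⟨φ, hφ1, -, hφ2⟩ := hpf.1.exists_nat_bool_injection hpf.2
    have hsub : range φ ⊆ D ∩ Metric.ball x r := by
      refine hφ1.trans ?_
      intro y hy
      refine ⟨closure_minimal inter_subset_right hD.closed hy, ?_⟩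
      have : y ∈ Metric.closedBall x (r / 2) :=
        closure_minimal (inter_subset_left.trans Metric.ball_subset_closedBall)
          Metric.isClosed_closedBall hy
      exact Metric.closedBall_subset_ball (half_lt_self hr) this
    have : Countable (range φ) := (hcount.mono hsub).to_subtype
    exact not_countable_nat_bool ((Equiv.ofInjective φ hφ2).countable_iff.2 this)
  let ix : ℕ → ℕ := fun n => (Nat.unpair n).1
  have hix : ∀ n, ix n ≤ n := fun n => Nat.unpair_left_le n
  let sep : ℕ → (ℕ → X) → ℝ → Prop := fun n x r => ∀ j ≤ n, ∀ k ≤ n, j ≠ k → ∀ m ≤ n,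
    ∀ y ∈ Metric.closedBall (x j) r, ∀ y' ∈ Metric.closedBall (x k) r, g m y ≠ y'
  let P : ℕ → (ℕ → X) × ℝ → Prop := fun n p => (∀ k ≤ n, p.1 k ∈ D) ∧
    (∀ j ≤ n, ∀ k ≤ n, j ≠ k → ¬ E (p.1 j) (p.1 k)) ∧ 0 < p.2 ∧ p.2 ≤ (1 / 2) ^ n ∧
    sep n p.1 p.2
  let R : ℕ → (ℕ → X) × ℝ → (ℕ → X) × ℝ → Prop := fun n p q =>
    (∀ k ≤ n, q.1 k = p.1 k) ∧ q.2 ≤ p.2 ∧
    Metric.closedBall (q.1 (n + 1)) q.2 ⊆ Metric.ball (p.1 (ix n)) p.2 ∧
    q.1 (n + 1) ≠ p.1 (ix n)
  have h0 : ∃ a, P 0 a := by
    refine ⟨(fun _ => d0, 1), fun _ _ => hd0, ?_, one_pos, by norm_num, ?_⟩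
    · intro j hj k hk hne
      omega
    · intro j hj k hk hne
      omega
  have hs : ∀ n a, P n a → ∃ b, P (n + 1) b ∧ R n a b := by
    rintro n ⟨x, r⟩ ⟨hxD, hxI, hr, hrn, hsep⟩
    simp only at hxD hxI hr hrn hsep
    -- choose the new point
    have : ∃ w ∈ D ∩ Metric.ball (x (ix n)) r, ∀ k ≤ n, ¬ E (x k) w := by
      by_contra hcon
      push Not at hcon
      apply hunc (x (ix n)) (hxD _ (hix n)) r hr
      have hcc : (⋃ k ∈ Finset.range (n + 1), {y | E (x k) y}).Countable :=
        Set.Countable.biUnion (Finset.countable_toSet _) (fun k _ => hc (x k))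
      refine hcc.mono ?_
      intro w hw
      obtain ⟨k, hk, hkw⟩ := hcon w hw
      exact mem_biUnion (Finset.mem_coe.2 (Finset.mem_range.2 (Nat.lt_succ_iff.2 hk))) hkw
    obtain ⟨w, ⟨hwD, hwb⟩, hw⟩ := this
    let x' : ℕ → X := fun k => if k ≤ n then x k else w
    have hx'1 : ∀ k ≤ n, x' k = x k := fun k hk => if_pos hk
    have hx'2 : x' (n + 1) = w := if_neg (by omega)
    have hind : ∀ j ≤ n + 1, ∀ k ≤ n + 1, j ≠ k → ¬ E (x' j) (x' k) := by
      intro j hj k hk hne
      rcases Nat.lt_or_ge j (n + 1) with h | h <;> rcases Nat.lt_or_ge k (n + 1) with h' | h'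
      · rw [hx'1 j (by omega), hx'1 k (by omega)]
        exact hxI j (by omega) k (by omega) hne
      · have : k = n + 1 := by omega
        rw [this, hx'2, hx'1 j (by omega)]
        exact hw j (by omega)
      · have : j = n + 1 := by omega
        rw [this, hx'2, hx'1 k (by omega)]
        exact fun h => hw k (by omega) (hE.symm h)
      · omega
    have hwne : w ≠ x (ix n) := by
      intro h
      exact hw (ix n) (hix n) (h ▸ hE.refl _)
    -- eventual conditions on the radius
    have e1 : ∀ᶠ t in 𝓝[>] (0 : ℝ), sep (n + 1) x' t := by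
      have : ∀ᶠ t in 𝓝[>] (0 : ℝ), ∀ j ∈ Finset.range (n + 2), ∀ k ∈ Finset.range (n + 2),
          ∀ m ∈ Finset.range (n + 2), j ≠ k → ∀ y ∈ Metric.closedBall (x' j) t,
          ∀ y' ∈ Metric.closedBall (x' k) t, g m y ≠ y' := by
        rw [Filter.eventually_all_finset]
        intro j hj
        rw [Filter.eventually_all_finset]
        intro k hk
        rw [Filter.eventually_all_finset]
        intro m hm
        rw [Finset.mem_range] at hj hk hm
        by_cases hjk : j = k
        · exact Filter.Eventually.of_forall fun t h => absurd hjk h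
        have hne : g m (x' j) ≠ x' k := by
          intro h
          exact hind j (by omega) k (by omega) hjk ((hgE _ _).2 ⟨m, h⟩)
        have hopen : IsOpen {p : X × X | g m p.1 ≠ p.2} :=
          isOpen_ne_fun ((hg m).comp continuous_fst) continuous_snd
        have hnh : {p : X × X | g m p.1 ≠ p.2} ∈ 𝓝 (x' j, x' k) := hopen.mem_nhds hne
        rw [nhds_prod_eq, Filter.mem_prod_iff] at hnh
        obtain ⟨U, hU, V, hV, hUV⟩ := hnh
        filter_upwards [exists_closedBall_subset_eventually hU,
          exists_closedBall_subset_eventually hV] with t h1 h2 _ y hy y' hy'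
        exact hUV (mk_mem_prod (h1 hy) (h2 hy'))
      filter_upwards [this] with t ht j hj k hk hne m hm
      exact ht j (Finset.mem_range.2 (by omega)) k (Finset.mem_range.2 (by omega)) m
        (Finset.mem_range.2 (by omega)) hne
    have e2 : ∀ᶠ t in 𝓝[>] (0 : ℝ),
        Metric.closedBall w t ⊆ Metric.ball (x (ix n)) r :=
      exists_closedBall_subset_eventually (Metric.isOpen_ball.mem_nhds hwb)
    have e4 : ∀ᶠ t in 𝓝[>] (0 : ℝ), t ∈ Ioo (0 : ℝ) ((1 / 2) ^ (n + 1)) :=
      Ioo_mem_nhdsGT (by positivity)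
    have e5 : ∀ᶠ t in 𝓝[>] (0 : ℝ), t ∈ Ioo (0 : ℝ) r := Ioo_mem_nhdsGT hr
    obtain ⟨t, h1, h2, h4, h5⟩ := (e1.and (e2.and (e4.and e5))).exists
    refine ⟨(x', t), ⟨?_, hind, h4.1, h4.2.le, h1⟩, hx'1, h5.2.le, ?_, ?_⟩
    · intro k hk
      change x' k ∈ D
      rcases Nat.lt_or_ge k (n + 1) with h | h
      · rw [hx'1 k (by omega)]
        exact hxD k (by omega)
      · have : k = n + 1 := by omega
        rw [this, hx'2]
        exact hwD
    · change Metric.closedBall (x' (n + 1)) t ⊆ Metric.ball (x (ix n)) r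
      rw [hx'2]
      exact h2
    · change x' (n + 1) ≠ x (ix n)
      rw [hx'2]
      exact hwne
  obtain ⟨s, hP, hR⟩ := exists_seq_step P R h0 hs
  -- the chosen points
  let x : ℕ → X := fun k => (s k).1 k
  have hx : ∀ n, ∀ k ≤ n, (s n).1 k = x k := by
    intro n k hk
    induction n, hk using Nat.le_induction with
    | base => rfl
    | succ n hk ih => rw [(hR n).1 k hk, ih]
  have hr0 : Filter.Tendsto (fun n => (s n).2) Filter.atTop (𝓝 0) := by
    apply squeeze_zero (fun n => (hP n).2.2.1.le) (fun n => (hP n).2.2.2.1)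
    exact tendsto_pow_atTop_nhds_zero_of_lt_one (by norm_num) (by norm_num)
  let W : ℕ → Set X := fun n => ⋃ k ∈ Finset.range (n + 1), Metric.closedBall (x k) (s n).2
  have hWc : ∀ n, IsClosed (W n) := fun n =>
    (Finset.finite_toSet (Finset.range (n + 1))).isClosed_biUnion
      (fun k _ => Metric.isClosed_closedBall)
  have hWsucc : ∀ n, W (n + 1) ⊆ W n := by
    intro n y hy
    simp only [W, mem_iUnion, Finset.mem_range, exists_prop] at hy ⊢
    obtain ⟨k, hk, hyk⟩ := hy
    rcases Nat.lt_or_ge k (n + 1) with h | h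
    · exact ⟨k, h, Metric.closedBall_subset_closedBall (hR n).2.1 hyk⟩
    · have hk' : k = n + 1 := by omega
      refine ⟨ix n, by have := hix n; omega, ?_⟩
      have h1 := (hR n).2.2.1
      rw [hx (n + 1) (n + 1) le_rfl, hx n (ix n) (hix n)] at h1
      rw [hk'] at hyk
      exact Metric.ball_subset_closedBall (h1 hyk)
  have hWanti : Antitone W := antitone_nat_of_succ_le hWsucc
  have hxW : ∀ n k, x k ∈ W n := by
    intro n k
    rcases Nat.le_total k n with h | h
    · simp only [W, mem_iUnion, Finset.mem_range, exists_prop]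
      exact ⟨k, by omega, Metric.mem_closedBall_self (hP n).2.2.1.le⟩
    · apply hWanti h
      simp only [W, mem_iUnion, Finset.mem_range, exists_prop]
      exact ⟨k, by omega, Metric.mem_closedBall_self (hP k).2.2.1.le⟩
  have hTW : ∀ n, closure (range x) ⊆ W n := by
    intro n
    apply closure_minimal _ (hWc n)
    rintro _ ⟨k, rfl⟩
    exact hxW n k
  refine ⟨closure (range x), isClosed_closure, ?_, ?_⟩
  · -- perfectness
    have hpre : Preperfect (range x) := by
      rw [preperfect_iff_nhds]
      rintro _ ⟨i, rfl⟩ U hU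
      obtain ⟨ε, hε, hεU⟩ := Metric.mem_nhds_iff.1 hU
      have hev : ∀ᶠ n in Filter.atTop, (s n).2 < ε := hr0.eventually_lt_const hε
      obtain ⟨N, hN⟩ := Filter.eventually_atTop.1 hev
      let n := Nat.pair i N
      have hn : ix n = i := by simp [ix, n]
      have hNn : N ≤ n := Nat.right_le_pair i N
      have hin : i ≤ n := Nat.left_le_pair i N
      have h1 := (hR n).2.2.1
      have h2 := (hR n).2.2.2
      rw [hx (n + 1) (n + 1) le_rfl, hn, hx n i hin] at h1 h2
      refine ⟨x (n + 1), ⟨hεU ?_, mem_range_self _⟩, h2⟩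
      have h3 := h1 (Metric.mem_closedBall_self (hP (n + 1)).2.2.1.le)
      exact Metric.ball_subset_ball (hN n hNn).le h3
    obtain ⟨φ, hφ1, -, hφ2⟩ := hpre.perfect_closure.exists_nat_bool_injection
      ⟨x 0, subset_closure (mem_range_self _)⟩
    intro hcount
    have : Countable (range φ) := (hcount.mono hφ1).to_subtype
    exact not_countable_nat_bool ((Equiv.ofInjective φ hφ2).countable_iff.2 this)
  · intro y hy y' hy' hEy
    by_contra hne
    obtain ⟨m, hm⟩ := (hgE y y').1 hEy
    have hd : 0 < dist y y' / 2 := by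
      have := dist_pos.2 hne
      linarith
    have hev : ∀ᶠ n in Filter.atTop, (s n).2 < dist y y' / 2 := hr0.eventually_lt_const hd
    obtain ⟨n, hn, hmn⟩ := (hev.and (Filter.eventually_ge_atTop m)).exists
    have h1 := hTW n hy
    have h2 := hTW n hy'
    simp only [W, mem_iUnion, Finset.mem_range, exists_prop] at h1 h2
    obtain ⟨j, hj, hyj⟩ := h1
    obtain ⟨k, hk, hyk⟩ := h2
    rcases eq_or_ne j k with hjk | hjk
    · subst hjk
      rw [Metric.mem_closedBall] at hyj hyk
      have := dist_triangle_right y y' (x j)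
      linarith
    · have hsep := (hP n).2.2.2.2 j (by omega) k (by omega) hjk m hmn
      rw [hx n j (by omega), hx n k (by omega)] at hsep
      exact hsep y hyj y' hyk hm

end Transversal

end Pool.Agent.W_MP_daea50_lc
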