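import Pool.Agent.W_MP_daea50_lc.LusinNovikov

set_option autoImplicit false
set_option linter.style.haveILetI false

open Set Function Topology MeasureTheory TopologicalSpace

namespace Pool.Agent.W_MP_daea50_lc

section Space

variable {X : Type*}

/-- The underlying set of the tree-like space: `A s` (for finite sequences `s` of natural numbers)
is a disjoint family of sets, `d s` is a sequence in `A s`, and `b` lies in no `A s`. -/
def treeSpace (A : List ℕ → Set X) (d : List ℕ → ℕ → X) (b : X) : Set (List ℕ → X) :=
  {ξ | (∀ s, ξ s ∈ A s ∨ ξ s = b) ∧ ξ [] ∈ A [] ∧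
    (∀ s i, ξ (i :: s) ∈ A (i :: s) → ξ s = d s i) ∧
    (∀ s i i', ξ (i :: s) ∈ A (i :: s) → ξ (i' :: s) ∈ A (i' :: s) → i = i')}

/-- The piece of the tree space attached at `s`. -/
def piece (A : List ℕ → Set X) (s : List ℕ) : Set (List ℕ → X) :=
  {ξ | ξ s ∈ A s ∧ ∀ i, ξ (i :: s) ∉ A (i :: s)}

/-- The point of the piece at `s` with coordinate `x` at `s`. -/
noncomputable def attach (d : List ℕ → ℕ → X) (b : X) : List ℕ → X → (List ℕ → X)
  | [], x => Function.update (fun _ => b) [] x
  | i :: s, x => Function.update (attach d b s (d s i)) (i :: s) x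

/-- The point of the tree space given by an infinite branch. -/
noncomputable def branch (d : List ℕ → ℕ → X) (b : X) (α : ℕ → ℕ) : List ℕ → X :=
  fun t => by
    classical
    exact if t = PiNat.res α t.length then d t (α t.length) else b

variable {A : List ℕ → Set X} {d : List ℕ → ℕ → X} {b : X}

theorem on_tail (hd : ∀ s n, d s n ∈ A s) {ξ : List ℕ → X} (hξ : ξ ∈ treeSpace A d b)
    {i : ℕ} {s : List ℕ} (h : ξ (i :: s) ∈ A (i :: s)) : ξ s ∈ A s := by
  rw [hξ.2.2.1 s i h]
  exact hd s i

theorem on_unique (hd : ∀ s n, d s n ∈ A s) {ξ : List ℕ → X} (hξ : ξ ∈ treeSpace A d b) :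
    ∀ t t' : List ℕ, t.length = t'.length → ξ t ∈ A t → ξ t' ∈ A t' → t = t' := by
  intro t
  induction t with
  | nil =>
    intro t' hl _ _
    exact (List.length_eq_zero_iff.1 hl.symm).symm
  | cons i u ih =>
    intro t' hl h h'
    cases t' with
    | nil => simp at hl
    | cons i' u' =>
      have hu := ih u' (by simpa using hl) (on_tail hd hξ h) (on_tail hd hξ h')
      subst hu
      rw [hξ.2.2.2 u i i' h h']

theorem on_suffix (hd : ∀ s n, d s n ∈ A s) {ξ : List ℕ → X} (hξ : ξ ∈ treeSpace A d b) :
    ∀ t s : List ℕ, s.length ≤ t.length → ξ t ∈ A t → ξ s ∈ A s → s <:+ t := by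
  intro t
  induction t with
  | nil =>
    intro s hl _ _
    rw [List.length_eq_zero_iff.1 (Nat.le_zero.1 hl)]
  | cons i u ih =>
    intro s hl h h'
    rcases Nat.lt_or_ge u.length s.length with hlt | hle
    · have : s.length = (i :: u).length := by
        simp only [List.length_cons] at hl ⊢
        omega
      rw [on_unique hd hξ s (i :: u) this h' h]
    · exact (ih s hle (on_tail hd hξ h) h').trans (List.suffix_cons i u)

theorem val_of_not_on {ξ : List ℕ → X} (hξ : ξ ∈ treeSpace A d b) {s : List ℕ} (h : ξ s ∉ A s) :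
    ξ s = b := (hξ.1 s).resolve_left h

theorem agree_below (hd : ∀ s n, d s n ∈ A s) {ξ η : List ℕ → X} (hξ : ξ ∈ treeSpace A d b)
    (hη : η ∈ treeSpace A d b) :
    ∀ t : List ℕ, ξ t ∈ A t → η t ∈ A t → ∀ s : List ℕ, s.length < t.length → ξ s = η s := by
  intro t
  induction t with
  | nil =>
    intro _ _ s hs
    simp at hs
  | cons i u ih =>
    intro h h' s hs
    have hu := on_tail hd hξ h
    have hu' := on_tail hd hη h'
    rcases Nat.lt_or_ge s.length u.length with hlt | hge
    · exact ih hu hu' s hlt
    · have hl : s.length = u.length := by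
        simp only [List.length_cons] at hs
        omega
      by_cases hsu : s = u
      · subst hsu
        rw [hξ.2.2.1 s i h, hη.2.2.1 s i h']
      · have h1 : ξ s ∉ A s := fun h => hsu (on_unique hd hξ s u hl h hu)
        have h2 : η s ∉ A s := fun h => hsu (on_unique hd hη s u hl h hu')
        rw [val_of_not_on hξ h1, val_of_not_on hη h2]

theorem piece_not_on_of_length (hd : ∀ s n, d s n ∈ A s) {ξ : List ℕ → X}
    (hξ : ξ ∈ treeSpace A d b) {s : List ℕ} (hs : ξ ∈ piece A s) :
    ∀ t : List ℕ, s.length < t.length → ξ t ∉ A t := by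
  intro t
  induction t with
  | nil =>
    intro h
    simp at h
  | cons i u ih =>
    intro hl h
    have hu := on_tail hd hξ h
    rcases Nat.lt_or_ge s.length u.length with hlt | hge
    · exact ih hlt hu
    · have hl' : u.length = s.length := by
        simp only [List.length_cons] at hl
        omega
      have := on_unique hd hξ u s hl' hu hs.1
      subst this
      exact hs.2 i h

theorem piece_ext (hd : ∀ s n, d s n ∈ A s) {ξ η : List ℕ → X} (hξ : ξ ∈ treeSpace A d b)
    (hη : η ∈ treeSpace A d b) {s : List ℕ} (hξs : ξ ∈ piece A s) (hηs : η ∈ piece A s)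
    (h : ξ s = η s) : ξ = η := by
  funext t
  rcases lt_trichotomy t.length s.length with hlt | heq | hgt
  · exact agree_below hd hξ hη s hξs.1 hηs.1 t hlt
  · by_cases hts : t = s
    · rw [hts, h]
    · have h1 : ξ t ∉ A t := fun h => hts (on_unique hd hξ t s heq h hξs.1)
      have h2 : η t ∉ A t := fun h => hts (on_unique hd hη t s heq h hηs.1)
      rw [val_of_not_on hξ h1, val_of_not_on hη h2]
  · rw [val_of_not_on hξ (piece_not_on_of_length hd hξ hξs t hgt),
      val_of_not_on hη (piece_not_on_of_length hd hη hηs t hgt)]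

theorem attach_mem (hd : ∀ s n, d s n ∈ A s) (hb : ∀ s, b ∉ A s) :
    ∀ (s : List ℕ) (x : X), x ∈ A s → attach d b s x ∈ treeSpace A d b ∧
      attach d b s x ∈ piece A s ∧ attach d b s x s = x := by
  intro s
  induction s with
  | nil =>
    intro x hx
    have h1 : attach d b [] x [] = x := by simp [attach]
    have h2 : ∀ t, t ≠ [] → attach d b [] x t = b := by
      intro t ht
      simp [attach, Function.update_of_ne ht]
    refine ⟨⟨?_, ?_, ?_, ?_⟩, ⟨?_, ?_⟩, h1⟩
    · intro t
      by_cases ht : t = []
      · left
        rw [ht, h1]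
        exact hx
      · right
        exact h2 t ht
    · rw [h1]
      exact hx
    · intro t i h
      rw [h2 (i :: t) (by simp)] at h
      exact absurd h (hb _)
    · intro t i i' h
      rw [h2 (i :: t) (by simp)] at h
      exact absurd h (hb _)
    · rw [h1]
      exact hx
    · intro i h
      rw [h2 [i] (by simp)] at h
      exact absurd h (hb _)
  | cons i s ih =>
    intro x hx
    obtain ⟨hξ, hξs, hξv⟩ := ih (d s i) (hd s i)
    set ξ := attach d b s (d s i) with hξdef
    have h1 : attach d b (i :: s) x (i :: s) = x := by simp [attach]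
    have h2 : ∀ t, t ≠ i :: s → attach d b (i :: s) x t = ξ t := by
      intro t ht
      rw [attach, Function.update_of_ne ht]
    have h3 : ∀ i', ξ (i' :: i :: s) ∉ A (i' :: i :: s) := by
      intro i' h
      exact hξs.2 i (on_tail hd hξ h)
    refine ⟨⟨?_, ?_, ?_, ?_⟩, ⟨?_, ?_⟩, h1⟩
    · intro t
      by_cases ht : t = i :: s
      · left
        rw [ht, h1]
        exact hx
      · rw [h2 t ht]
        exact hξ.1 t
    · rw [h2 [] (by simp)]
      exact hξ.2.1
    · intro t i' h
      by_cases ht : i' :: t = i :: s
      · obtain ⟨rfl, rfl⟩ := List.cons.inj ht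
        rw [h2 t (by intro h; have := congrArg List.length h; simp at this)]
        exact hξv
      · rw [h2 _ ht] at h
        have ht' : t ≠ i :: s := by
          rintro rfl
          exact h3 i' h
        rw [h2 t ht']
        exact hξ.2.2.1 t i' h
    · intro t i1 i2 hi1 hi2
      by_cases hts : t = s
      · subst hts
        have : ∀ j, attach d b (i :: t) x (j :: t) ∈ A (j :: t) → j = i := by
          intro j hj
          by_contra hne
          rw [h2 (j :: t) (by intro h; exact hne (List.cons.inj h).1)] at hj
          exact hξs.2 j hj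
        rw [this i1 hi1, this i2 hi2]
      · rw [h2 (i1 :: t) (by intro h; exact hts (List.cons.inj h).2)] at hi1
        rw [h2 (i2 :: t) (by intro h; exact hts (List.cons.inj h).2)] at hi2
        exact hξ.2.2.2 t i1 i2 hi1 hi2
    · rw [h1]
      exact hx
    · intro i' h
      rw [h2 (i' :: i :: s) (by intro h; have := congrArg List.length h; simp at this)] at h
      exact h3 i' h

theorem branch_on_iff (hd : ∀ s n, d s n ∈ A s) (hb : ∀ s, b ∉ A s) (α : ℕ → ℕ) (t : List ℕ) :
    branch d b α t ∈ A t ↔ t = PiNat.res α t.length := by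
  unfold branch
  split_ifs with h
  · exact ⟨fun _ => h, fun _ => hd _ _⟩
  · exact ⟨fun h' => absurd h' (hb _), fun h' => absurd h' h⟩

theorem branch_val {α : ℕ → ℕ} {t : List ℕ} (h : t = PiNat.res α t.length) :
    branch d b α t = d t (α t.length) := by
  unfold branch
  exact if_pos h

theorem branch_mem (hd : ∀ s n, d s n ∈ A s) (hb : ∀ s, b ∉ A s) (α : ℕ → ℕ) :
    branch d b α ∈ treeSpace A d b := by
  refine ⟨?_, ?_, ?_, ?_⟩
  · intro t
    by_cases h : t = PiNat.res α t.length
    · left
      exact (branch_on_iff hd hb α t).2 h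
    · right
      unfold branch
      exact if_neg h
  · rw [branch_on_iff hd hb]
    rfl
  · intro t i h
    rw [branch_on_iff hd hb, List.length_cons, PiNat.res_succ] at h
    obtain ⟨h1, h2⟩ := List.cons.inj h
    rw [branch_val h2, ← h1]
  · intro t i i' h h'
    rw [branch_on_iff hd hb, List.length_cons, PiNat.res_succ] at h h'
    rw [(List.cons.inj h).1, (List.cons.inj h').1]

/-- A point of the tree space is in one of the pieces or is a branch. -/
theorem mem_piece_or_branch (hd : ∀ s n, d s n ∈ A s) (hb : ∀ s, b ∉ A s) {ξ : List ℕ → X}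
    (hξ : ξ ∈ treeSpace A d b) : (∃ s, ξ ∈ piece A s) ∨ ∃ α, ξ = branch d b α := by
  by_cases h : ∃ s, ξ ∈ piece A s
  · exact Or.inl h
  · right
    have hch : ∀ s, ∃ i, ξ s ∈ A s → ξ (i :: s) ∈ A (i :: s) := by
      intro s
      by_contra hcon
      push Not at hcon
      exact h ⟨s, (hcon 0).1, fun i => (hcon i).2⟩
    choose ch hch using hch
    let L : ℕ → List ℕ := fun n => Nat.rec [] (fun _ l => ch l :: l) n
    let α : ℕ → ℕ := fun n => ch (L n)
    have hL : ∀ n, PiNat.res α n = L n := by
      intro n
      induction n with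
      | zero => rfl
      | succ n ih => rw [PiNat.res_succ, ih]
    have hon : ∀ n, ξ (L n) ∈ A (L n) := by
      intro n
      induction n with
      | zero => exact hξ.2.1
      | succ n ih => exact hch _ ih
    refine ⟨α, ?_⟩
    funext t
    have hlen : (L (t.length + 1)).length = t.length + 1 := by
      rw [← hL (t.length + 1), PiNat.res_length]
    refine agree_below hd hξ (branch_mem hd hb α) (L (t.length + 1)) (hon (t.length + 1)) ?_ t
      (by omega)
    rw [branch_on_iff hd hb, hlen, hL (t.length + 1)]

theorem branch_not_mem_piece (hd : ∀ s n, d s n ∈ A s) (hb : ∀ s, b ∉ A s) (α : ℕ → ℕ)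
    (s : List ℕ) : branch d b α ∉ piece A s := by
  rintro ⟨h1, h2⟩
  rw [branch_on_iff hd hb] at h1
  apply h2 (α s.length)
  rw [branch_on_iff hd hb, List.length_cons, PiNat.res_succ, ← h1]

theorem branch_injective (hd : ∀ s n, d s n ∈ A s) (hb : ∀ s, b ∉ A s) :
    Injective (branch d b) := by
  intro α β h
  apply PiNat.res_injective
  funext n
  have h1 : branch d b α (PiNat.res α n) ∈ A (PiNat.res α n) := by
    rw [branch_on_iff hd hb, PiNat.res_length]
  rw [h, branch_on_iff hd hb, PiNat.res_length] at h1
  exact h1

theorem piece_disjoint (hd : ∀ s n, d s n ∈ A s) {ξ : List ℕ → X} (hξ : ξ ∈ treeSpace A d b)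
    {s t : List ℕ} (hs : ξ ∈ piece A s) (ht : ξ ∈ piece A t) : s = t := by
  rcases lt_trichotomy s.length t.length with h | h | h
  · exact absurd ht.1 (piece_not_on_of_length hd hξ hs t h)
  · exact on_unique hd hξ s t h hs.1 ht.1
  · exact absurd hs.1 (piece_not_on_of_length hd hξ ht s h)

end Space

section Topology

variable {X : Type*} [TopologicalSpace X] {A : List ℕ → Set X} {d : List ℕ → ℕ → X} {b : X}

theorem isClosed_treeSpace [T1Space X] (hA : ∀ s, IsClopen (A s)) :
    IsClosed (treeSpace A d b) := by
  have e : treeSpace A d b = (⋂ s, ({ξ : List ℕ → X | ξ s ∈ A s} ∪ {ξ | ξ s = b})) ∩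
      ({ξ | ξ [] ∈ A []} ∩ ((⋂ s, ⋂ i, ({ξ | ξ (i :: s) ∈ (A (i :: s))ᶜ} ∪ {ξ | ξ s = d s i})) ∩
      (⋂ s, ⋂ i, ⋂ i', ({ξ | ξ (i :: s) ∈ (A (i :: s))ᶜ} ∪ ({ξ | ξ (i' :: s) ∈ (A (i' :: s))ᶜ} ∪
        {_ξ | i = i'}))))) := by
    ext ξ
    simp only [treeSpace, mem_ofPred_eq, mem_inter_iff, mem_iInter, mem_union, mem_compl_iff]
    refine and_congr Iff.rfl (and_congr Iff.rfl (and_congr ?_ ?_))
    · exact forall_congr' fun s => forall_congr' fun i => by tauto
    · exact forall_congr' fun s => forall_congr' fun i => forall_congr' fun i' => by tauto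
  rw [e]
  have ev : ∀ s : List ℕ, Continuous fun ξ : List ℕ → X => ξ s := fun s => continuous_apply s
  refine IsClosed.inter (isClosed_iInter fun s => ?_) (IsClosed.inter ?_ (IsClosed.inter
    (isClosed_iInter fun s => isClosed_iInter fun i => ?_)
    (isClosed_iInter fun s => isClosed_iInter fun i => isClosed_iInter fun i' => ?_)))
  · exact ((hA s).isClosed.preimage (ev s)).union (isClosed_singleton.preimage (ev s))
  · exact (hA []).isClosed.preimage (ev [])
  · exact ((hA _).compl.isClosed.preimage (ev _)).union (isClosed_singleton.preimage (ev s))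
  · exact ((hA _).compl.isClosed.preimage (ev _)).union
      (((hA _).compl.isClosed.preimage (ev _)).union isClosed_const)

theorem isClosed_piece (hA : ∀ s, IsClopen (A s)) (s : List ℕ) : IsClosed (piece A s) := by
  have ev : ∀ s : List ℕ, Continuous fun ξ : List ℕ → X => ξ s := fun s => continuous_apply s
  have e : piece A s = {ξ | ξ s ∈ A s} ∩ ⋂ i, {ξ | ξ (i :: s) ∈ (A (i :: s))ᶜ} := by
    ext ξ
    simp [piece]
  rw [e]
  exact ((hA s).isClosed.preimage (ev s)).inter
    (isClosed_iInter fun i => (hA _).compl.isClosed.preimage (ev _))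

theorem continuous_attach (s : List ℕ) : Continuous (attach d b s) := by
  cases s with
  | nil =>
    change Continuous fun x => Function.update (fun _ => b) [] x
    exact continuous_const.update [] continuous_id
  | cons i s =>
    change Continuous fun x => Function.update (attach d b s (d s i)) (i :: s) x
    exact continuous_const.update (i :: s) continuous_id

theorem continuous_res (n : ℕ) : @Continuous (ℕ → ℕ) (List ℕ) _ ⊥ (fun α => PiNat.res α n) := by
  letI : TopologicalSpace (List ℕ) := ⊥
  haveI : DiscreteTopology (List ℕ) := ⟨rfl⟩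
  induction n with
  | zero =>
    simp only [PiNat.res_zero]
    exact continuous_const
  | succ n ih =>
    simp only [PiNat.res_succ]
    exact (continuous_of_discreteTopology (f := fun p : ℕ × List ℕ => p.1 :: p.2)).comp
      ((continuous_apply n).prodMk ih)

theorem continuous_branch : Continuous (branch d b) := by
  classical
  refine continuous_pi fun t => ?_
  letI : TopologicalSpace (List ℕ) := ⊥
  haveI : DiscreteTopology (List ℕ) := ⟨rfl⟩
  have : (fun α : ℕ → ℕ => branch d b α t) =
      (fun p : ℕ × List ℕ => if t = p.2 then d t p.1 else b) ∘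
        (fun α => (α t.length, PiNat.res α t.length)) := by
    funext α
    simp only [branch, comp]
  rw [this]
  exact continuous_of_discreteTopology.comp ((continuous_apply _).prodMk (continuous_res _))

/-- Every point of the tree space is a limit of any selection of one point in each piece. -/
theorem mem_closure_selection (hd : ∀ s n, d s n ∈ A s) (hb : ∀ s, b ∉ A s)
    (hdense : ∀ s, ∀ x ∈ A s, ∀ V ∈ 𝓝 x, ∀ N, ∃ n, N ≤ n ∧ d s n ∈ V)
    (z : List ℕ → List ℕ → X) (hz : ∀ s, z s ∈ treeSpace A d b) (hz' : ∀ s, z s ∈ piece A s)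
    {ξ : List ℕ → X} (hξ : ξ ∈ treeSpace A d b) : ξ ∈ closure (range z) := by
  classical
  rcases mem_piece_or_branch hd hb hξ with ⟨s, hs⟩ | ⟨α, rfl⟩
  · let F : Filter ℕ := Filter.atTop ⊓ Filter.comap (d s) (𝓝 (ξ s))
    haveI : F.NeBot := by
      rw [Filter.inf_neBot_iff]
      intro U hU V hV
      obtain ⟨N, hN⟩ := Filter.mem_atTop_sets.1 hU
      obtain ⟨W, hW, hWV⟩ := Filter.mem_comap.1 hV
      obtain ⟨n, hn, hnW⟩ := hdense s (ξ s) hs.1 W hW N
      exact ⟨n, hN n hn, hWV hnW⟩
    have ht : Filter.Tendsto (fun i => z (i :: s)) F (𝓝 ξ) := by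
      rw [tendsto_pi_nhds]
      intro t
      have hon : ∀ i, z (i :: s) (i :: s) ∈ A (i :: s) := fun i => (hz' (i :: s)).1
      have hons : ∀ i, z (i :: s) s ∈ A s := fun i => on_tail hd (hz _) (hon i)
      by_cases hts : t = s
      · subst hts
        have : (fun i => z (i :: t) t) = d t := by
          funext i
          exact (hz (i :: t)).2.2.1 t i (hon i)
        rw [this]
        exact Filter.tendsto_comap.mono_left inf_le_right
      · apply tendsto_const_nhds.congr'
        rcases Nat.lt_or_ge s.length t.length with hlt | hge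
        · rw [val_of_not_on hξ (piece_not_on_of_length hd hξ hs t hlt)]
          have hev : ∀ᶠ i in F, t.sum < i :=
            (Filter.eventually_gt_atTop t.sum).filter_mono inf_le_left
          filter_upwards [hev] with i hi
          symm
          apply val_of_not_on (hz _)
          intro hon'
          have hsuf := on_suffix hd (hz (i :: s)) t (i :: s)
            (by simp only [List.length_cons]; omega) hon' (hon i)
          have : i ∈ t := hsuf.subset (by simp)
          have := List.single_le_sum (by simp) i this
          omega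
        · refine Filter.Eventually.of_forall fun i => ?_
          rcases Nat.lt_or_ge t.length s.length with hlt | hge'
          · exact agree_below hd hξ (hz _) s hs.1 (hons i) t hlt
          · have hl : t.length = s.length := le_antisymm hge hge'
            have h1 : ξ t ∉ A t := fun h => hts (on_unique hd hξ t s hl h hs.1)
            have h2 : z (i :: s) t ∉ A t := fun h => hts (on_unique hd (hz _) t s hl h (hons i))
            change ξ t = z (i :: s) t
            rw [val_of_not_on hξ h1, val_of_not_on (hz _) h2]
    exact mem_closure_of_tendsto ht (Filter.Eventually.of_forall fun i => mem_range_self _)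
  · have ht : Filter.Tendsto (fun n => z (PiNat.res α n)) Filter.atTop (𝓝 (branch d b α)) := by
      rw [tendsto_pi_nhds]
      intro t
      apply tendsto_const_nhds.congr'
      filter_upwards [Filter.eventually_gt_atTop t.length] with n hn
      apply agree_below hd hξ (hz _) (PiNat.res α n) _ (hz' _).1 t
      · rw [PiNat.res_length]
        exact hn
      · rw [branch_on_iff hd hb, PiNat.res_length]
    exact mem_closure_of_tendsto ht (Filter.Eventually.of_forall fun i => mem_range_self _)

end Topology

end Pool.Agent.W_MP_daea50_lc
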