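import Pool.Agent.W_MP_daea50_lc.LusinNovikov
import Pool.Agent.W_MP_daea50_lc.Generating
import Pool.Agent.W_MP_daea50_lc.Transversal
import Pool.Agent.W_MP_daea50_lc.Marker
import Pool.Agent.W_MP_daea50_lc.TreeSpace

/-!
# Minimal F-sigma realizations of aperiodic countable Borel equivalence relations

Every aperiodic countable Borel equivalence relation `E` on an uncountable standard Borel space is
Borel isomorphic to an equivalence relation `F` on a Polish space `Y` such that `F` is an
`F_σ` subset of `Y × Y` and every `F`-class is dense in `Y`.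

Outline. By Lusin-Novikov, `E` is the union of the graphs of Borel functions `g n`. Choose an
uncountable Borel set `T` of pairwise inequivalent points, and a Borel map `j` to `ℕ`, identified
with the set of finite sequences of natural numbers, taking every value infinitely often on every
class. Choose a compatible Polish topology on `X` for which all `g n`, `j`, the indicator function
of `T` and a Borel isomorphism of `T` with the Baire space are continuous. The space `Y` consists
of the infinite branches of the tree of finite sequences (these carry `T`), together with one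
closed piece at every finite sequence `s`, carrying `{x ∉ T | j x = s}`; the cylinders below
`s` accumulate at the piece attached at `s`. Every nonempty open set contains a whole piece, whence
all classes are dense. Since `T` meets every class in at most one point, `F` is the union of the
diagonal and of the graphs of the maps `g n` on the closed pieces and their transposes, all of
which are closed.
-/

set_option autoImplicit false
set_option linter.style.haveILetI false

open Set Function Topology MeasureTheory TopologicalSpace

namespace Pool.Agent.W_MP_daea50_lc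

universe u

/-- Every aperiodic countable Borel equivalence relation on an uncountable standard Borel space has
a topological realization that is both minimal and `F_σ`. -/
theorem exists_minimal_Fsigma {X : Type u} [MeasurableSpace X] [StandardBorelSpace X] [Uncountable X]
    (E : X → X → Prop) (hE : Equivalence E)
    (hBorel : MeasurableSet {p : X × X | E p.1 p.2})
    (hcount : ∀ x, {y | E x y}.Countable)
    (haper : ∀ x, {y | E x y}.Infinite) :
    ∃ (Y : Type u) (_ : TopologicalSpace Y) (_ : PolishSpace Y)
      (_ : MeasurableSpace Y) (_ : BorelSpace Y)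
      (F : Y → Y → Prop) (f : X ≃ᵐ Y),
      Equivalence F ∧
      (∀ x x', E x x' ↔ F (f x) (f x')) ∧
      (∃ C : ℕ → Set (Y × Y), (∀ n, IsClosed (C n)) ∧ {p : Y × Y | F p.1 p.2} = ⋃ n, C n) ∧
      (∀ y, Dense {z | F y z}) := by
  classical
  obtain ⟨g, hg, hgE⟩ := exists_generating_functions E hE hBorel hcount
  have hXnc : ¬ Countable X := not_countable_iff.2 inferInstance
  -- the uncountable independent set
  obtain ⟨T, hTm, hTc, hTE⟩ : ∃ T : Set X, MeasurableSet T ∧ ¬ T.Countable ∧
      ∀ x ∈ T, ∀ y ∈ T, E x y → x = y := by
    obtain ⟨t, hp, hb, hgc, -⟩ := exists_polish_continuous g hg (fun _ : X => (0 : ℕ))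
      measurable_const
    letI : TopologicalSpace X := t
    haveI : PolishSpace X := hp
    haveI : BorelSpace X := hb
    letI := upgradeIsCompletelyMetrizable X
    obtain ⟨T, h1, h2, h3⟩ := exists_closed_independent hXnc E hE hcount g hgc hgE
    exact ⟨T, h1.measurableSet, h2, h3⟩
  -- the marker function
  obtain ⟨j, hj, hjinf⟩ := exists_marker hE hg hgE haper
  -- a Borel isomorphism of `T` with the Baire space
  haveI : StandardBorelSpace T := hTm.standardBorel
  have hTnc : ¬ Countable T := hTc
  let θ : T ≃ᵐ (ℕ → ℕ) := PolishSpace.measurableEquivOfNotCountable hTnc not_countable_nat_nat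
  let θ' : X → (ℕ → ℕ) := fun x => if h : x ∈ T then θ ⟨x, h⟩ else 0
  have hθ' : Measurable θ' := by
    refine Measurable.dite (s := T) (f := fun x => θ x) (g := fun _ => 0) ?_ ?_ hTm
    · exact θ.measurable
    · exact measurable_const
  have hθ'T : ∀ x (h : x ∈ T), θ' x = θ ⟨x, h⟩ := fun x h => dif_pos h
  -- the topology on `X`
  let φ : X → Bool × ℕ × (ℕ → ℕ) := fun x => (decide (x ∈ T), j x, θ' x)
  have hφ : Measurable φ := by
    refine Measurable.prodMk ?_ (hj.prodMk hθ')
    have : (fun x => decide (x ∈ T)) = fun x => if x ∈ T then true else false := by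
      funext x
      by_cases h : x ∈ T <;> simp [h]
    rw [this]
    exact Measurable.ite hTm measurable_const measurable_const
  obtain ⟨t, hp, hb, hgc, hφc⟩ := exists_polish_continuous g hg φ hφ
  letI : TopologicalSpace X := t
  haveI : PolishSpace X := hp
  haveI : BorelSpace X := hb
  have hTclopen : IsClopen T := by
    have h1 : Continuous fun x => decide (x ∈ T) := continuous_fst.comp hφc
    have h2 := (isClopen_discrete ({true} : Set Bool)).preimage h1
    convert h2 using 1
    ext x
    simp
  have hjc : Continuous j := continuous_fst.comp (continuous_snd.comp hφc)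
  have hθ'c : Continuous θ' := continuous_snd.comp (continuous_snd.comp hφc)
  -- pieces
  let A : List ℕ → Set X := fun s => {x | x ∉ T ∧ j x = Encodable.encode s}
  have hA : ∀ s, IsClopen (A s) := by
    intro s
    have h2 := (isClopen_discrete ({Encodable.encode s} : Set ℕ)).preimage hjc
    exact hTclopen.compl.inter h2
  have hAne : ∀ x s, ∃ y, E x y ∧ y ∈ A s := by
    intro x s
    by_contra hcon
    push Not at hcon
    have hsub : {y | E x y ∧ j y = Encodable.encode s} ⊆ {y | E x y ∧ y ∈ T} := by
      rintro y ⟨h1, h2⟩
      refine ⟨h1, ?_⟩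
      by_contra h3
      exact hcon y h1 ⟨h3, h2⟩
    have hss : {y | E x y ∧ y ∈ T}.Subsingleton := by
      rintro y ⟨h1, h2⟩ z ⟨h3, h4⟩
      exact hTE y h2 z h4 (hE.trans (hE.symm h1) h3)
    exact hjinf x (Encodable.encode s) (hss.finite.subset hsub)
  obtain ⟨b, hbT⟩ : T.Nonempty := by
    rw [Set.nonempty_iff_ne_empty]
    rintro rfl
    exact hTc countable_empty
  have hbA : ∀ s, b ∉ A s := fun s h => h.1 hbT
  -- dense sequences in the pieces
  have hdex : ∀ s, ∃ d : ℕ → X, (∀ n, d n ∈ A s) ∧
      ∀ x ∈ A s, ∀ V ∈ 𝓝 x, ∀ N, ∃ n, N ≤ n ∧ d n ∈ V := by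
    intro s
    obtain ⟨y, -, hy⟩ := hAne b s
    haveI : Nonempty (A s) := ⟨⟨y, hy⟩⟩
    refine ⟨fun n => (denseSeq (A s) (Nat.unpair n).1 : X), fun n => Subtype.coe_prop _, ?_⟩
    intro x hx V hV N
    have hV' : (Subtype.val ⁻¹' V : Set (A s)) ∈ 𝓝 (⟨x, hx⟩ : A s) :=
      continuous_subtype_val.continuousAt hV
    obtain ⟨_, ⟨m, rfl⟩, hw1⟩ := (denseRange_denseSeq (A s)).inter_nhds_nonempty hV'
    exact ⟨Nat.pair m N, Nat.right_le_pair m N, by simpa using hw1⟩
  choose d hd hdense using hdex
  -- the space
  let Y : Type u := treeSpace A d b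
  haveI hYp : PolishSpace Y := (isClosed_treeSpace hA).polishSpace
  letI : MeasurableSpace Y := borel Y
  haveI : BorelSpace Y := ⟨rfl⟩
  let node : X → List ℕ := fun x => Denumerable.ofNat (List ℕ) (j x)
  have hnode : ∀ x, x ∉ T → x ∈ A (node x) := by
    intro x hx
    exact ⟨hx, by simp [node]⟩
  have hnode' : ∀ x s, x ∈ A s → node x = s := by
    rintro x s ⟨_, h⟩
    simp only [node, h, Denumerable.ofNat_encode]
  let h : X → Y := fun x => if hx : x ∈ T then ⟨branch d b (θ' x), branch_mem hd hbA _⟩ else
    ⟨attach d b (node x) x, (attach_mem hd hbA (node x) x (hnode x hx)).1⟩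
  have hhT : ∀ x, x ∈ T → (h x : List ℕ → X) = branch d b (θ' x) := by
    intro x hx
    simp only [h, dif_pos hx]
  have hhA : ∀ s x, x ∈ A s → (h x : List ℕ → X) = attach d b s x := by
    intro s x hx
    have : x ∉ T := hx.1
    simp only [h, dif_neg this, hnode' x s hx]
  have hhpiece : ∀ s x, x ∈ A s → (h x : List ℕ → X) ∈ piece A s ∧ (h x : List ℕ → X) s = x := by
    intro s x hx
    rw [hhA s x hx]
    exact (attach_mem hd hbA s x hx).2
  -- continuity of `h`
  have hhc : Continuous h := by
    rw [Topology.IsEmbedding.subtypeVal.continuous_iff, continuous_iff_continuousAt]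
    intro x
    by_cases hx : x ∈ T
    · have h1 : ContinuousAt (fun y => branch d b (θ' y)) x :=
        (continuous_branch.comp hθ'c).continuousAt
      apply h1.congr
      filter_upwards [hTclopen.isOpen.mem_nhds hx] with y hy
      exact (hhT y hy).symm
    · have h1 : ContinuousAt (fun y => attach d b (node x) y) x :=
        (continuous_attach (node x)).continuousAt
      apply h1.congr
      filter_upwards [(hA (node x)).isOpen.mem_nhds (hnode x hx)] with y hy
      exact (hhA (node x) y hy).symm
  have hhinj : Injective h := by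
    intro x y hxy
    have hv : (h x : List ℕ → X) = h y := congrArg Subtype.val hxy
    by_cases hx : x ∈ T
    · by_cases hy : y ∈ T
      · rw [hhT x hx, hhT y hy] at hv
        have h1 := branch_injective hd hbA hv
        rw [hθ'T x hx, hθ'T y hy] at h1
        exact congrArg Subtype.val (θ.injective h1)
      · have h2 := (hhpiece (node y) y (hnode y hy)).1
        rw [← hv, hhT x hx] at h2
        exact absurd h2 (branch_not_mem_piece hd hbA _ _)
    · have h1 := hhpiece (node x) x (hnode x hx)
      by_cases hy : y ∈ T
      · have h2 := h1.1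
        rw [hv, hhT y hy] at h2
        exact absurd h2 (branch_not_mem_piece hd hbA _ _)
      · have h2 := hhpiece (node y) y (hnode y hy)
        have h3 : node x = node y := by
          apply piece_disjoint hd (h x).2 h1.1
          rw [hv]
          exact h2.1
        rw [← h1.2, ← h2.2, hv, h3]
  have hhsurj : Surjective h := by
    rintro ⟨ξ, hξ⟩
    rcases mem_piece_or_branch hd hbA hξ with ⟨s, hs⟩ | ⟨α, hα⟩
    · refine ⟨ξ s, Subtype.ext ?_⟩
      exact piece_ext hd (h (ξ s)).2 hξ (hhpiece s (ξ s) hs.1).1 hs (hhpiece s (ξ s) hs.1).2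
    · refine ⟨θ.symm α, Subtype.ext ?_⟩
      rw [hhT _ (θ.symm α).2, hθ'T _ (θ.symm α).2]
      simp only [Subtype.coe_eta, MeasurableEquiv.apply_symm_apply]
      exact hα.symm
  have hhe : MeasurableEmbedding h := hhc.measurable.measurableEmbedding hhinj
  let f : X ≃ᵐ Y :=
    { toEquiv := Equiv.ofBijective h ⟨hhinj, hhsurj⟩
      measurable_toFun := hhc.measurable
      measurable_invFun := by
        intro S hS
        have : (Equiv.ofBijective h ⟨hhinj, hhsurj⟩).symm ⁻¹' S = h '' S := by
          rw [← Equiv.image_eq_preimage_symm]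
          rfl
        change MeasurableSet ((Equiv.ofBijective h ⟨hhinj, hhsurj⟩).symm ⁻¹' S)
        rw [this]
        exact hhe.measurableSet_image.2 hS }
  have hf : ∀ x, f x = h x := fun x => rfl
  let F : Y → Y → Prop := fun y y' => E (f.symm y) (f.symm y')
  have hEF : ∀ x x', E x x' ↔ F (h x) (h x') := by
    intro x x'
    change E x x' ↔ E (f.symm (h x)) (f.symm (h x'))
    rw [← hf, ← hf, MeasurableEquiv.symm_apply_apply, MeasurableEquiv.symm_apply_apply]
  refine ⟨Y, inferInstance, hYp, borel Y, inferInstance, F, f, ?_, hEF, ?_, ?_⟩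
  · exact ⟨fun _ => hE.refl _, fun h => hE.symm h, fun h1 h2 => hE.trans h1 h2⟩
  · -- `F` is a countable union of closed sets
    let Pc : ℕ → List ℕ → Set (Y × Y) := fun n s =>
      {p | (p.1 : List ℕ → X) ∈ piece A s ∧ p.2 = h (g n ((p.1 : List ℕ → X) s))}
    have hPc : ∀ n s, IsClosed (Pc n s) := by
      intro n s
      have c1 : Continuous fun p : Y × Y => (p.1 : List ℕ → X) :=
        continuous_subtype_val.comp continuous_fst
      refine ((isClosed_piece hA s).preimage c1).inter (isClosed_eq continuous_snd ?_)
      exact hhc.comp ((hgc n).comp ((continuous_apply s).comp c1))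
    let Cl : Option (Bool × ℕ × List ℕ) → Set (Y × Y) := fun o =>
      match o with
      | none => {p | p.1 = p.2}
      | some (false, n, s) => Pc n s
      | some (true, n, s) => Prod.swap ⁻¹' Pc n s
    have hCl : ∀ o, IsClosed (Cl o) := by
      intro o
      match o with
      | none => exact isClosed_eq continuous_fst continuous_snd
      | some (false, n, s) => exact hPc n s
      | some (true, n, s) => exact (hPc n s).preimage continuous_swap
    obtain ⟨e, he⟩ := exists_surjective_nat (Option (Bool × ℕ × List ℕ))
    refine ⟨fun n => Cl (e n), fun n => hCl _, ?_⟩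
    have hPF : ∀ n s p, p ∈ Pc n s → F p.1 p.2 := by
      rintro n s ⟨y, y'⟩ ⟨h1, h2⟩
      obtain ⟨x, rfl⟩ := hhsurj y
      have h1' : (h x : List ℕ → X) s ∈ A s := h1.1
      have h3 : h ((h x : List ℕ → X) s) = h x := by
        apply Subtype.ext
        exact piece_ext hd (h _).2 (h x).2 (hhpiece s _ h1').1 h1 (hhpiece s _ h1').2
      have h4 : (h x : List ℕ → X) s = x := hhinj h3
      change F (h x) y'
      have h2' : y' = h (g n ((h x : List ℕ → X) s)) := h2
      rw [h2', h4, ← hEF, hgE]
      exact ⟨n, rfl⟩
    ext ⟨y, y'⟩
    constructor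
    · intro hF
      have hF' : F y y' := hF
      obtain ⟨x, rfl⟩ := hhsurj y
      obtain ⟨x', rfl⟩ := hhsurj y'
      rw [← hEF] at hF'
      by_cases hx : x ∈ T
      · by_cases hx' : x' ∈ T
        · obtain ⟨m, hm⟩ := he none
          refine mem_iUnion.2 ⟨m, ?_⟩
          have : x = x' := hTE x hx x' hx' hF'
          change (h x, h x') ∈ Cl (e m)
          rw [hm, this]
          rfl
        · obtain ⟨n, hn⟩ := (hgE x' x).1 (hE.symm hF')
          obtain ⟨m, hm⟩ := he (some (true, n, node x'))
          refine mem_iUnion.2 ⟨m, ?_⟩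
          rw [hm]
          have h1 := hhpiece (node x') x' (hnode x' hx')
          refine ⟨h1.1, ?_⟩
          change h x = h (g n ((h x' : List ℕ → X) (node x')))
          rw [h1.2, hn]
      · obtain ⟨n, hn⟩ := (hgE x x').1 hF'
        obtain ⟨m, hm⟩ := he (some (false, n, node x))
        refine mem_iUnion.2 ⟨m, ?_⟩
        rw [hm]
        have h1 := hhpiece (node x) x (hnode x hx)
        refine ⟨h1.1, ?_⟩
        change h x' = h (g n ((h x : List ℕ → X) (node x)))
        rw [h1.2, hn]
    · intro hp
      obtain ⟨m, hm⟩ := mem_iUnion.1 hp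
      have hm' : (y, y') ∈ Cl (e m) := hm
      change F y y'
      match hem : e m, hm' with
      | none, hm' =>
        have : y = y' := hm'
        rw [this]
        exact hE.refl _
      | some (false, n, s), hm' => exact hPF n s (y, y') hm'
      | some (true, n, s), hm' => exact hE.symm (hPF n s (y', y) hm')
  · -- every class is dense
    intro y
    obtain ⟨x, rfl⟩ := hhsurj y
    choose z hz1 hz2 using hAne x
    intro ξ
    have h1 := mem_closure_selection hd hbA hdense (fun s => (h (z s) : List ℕ → X))
      (fun s => (h (z s)).2) (fun s => (hhpiece s (z s) (hz2 s)).1) ξ.2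
    rw [closure_subtype]
    refine closure_mono ?_ h1
    rintro _ ⟨s, rfl⟩
    refine ⟨h (z s), ?_, rfl⟩
    exact (hEF x (z s)).1 (hz1 s)

end Pool.Agent.W_MP_daea50_lc
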