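import Mathlib

set_option autoImplicit false

open Set Function Topology MeasureTheory TopologicalSpace

namespace Pool.Agent.W_MP_daea50_lc

universe u v

/-- A convenient dependent-choice lemma. -/
theorem exists_seq_step {α : Type*} (P : ℕ → α → Prop) (R : ℕ → α → α → Prop)
    (h0 : ∃ a, P 0 a) (hs : ∀ n a, P n a → ∃ b, P (n + 1) b ∧ R n a b) :
    ∃ s : ℕ → α, (∀ n, P n (s n)) ∧ ∀ n, R n (s n) (s (n + 1)) := by
  classical
  obtain ⟨a0, ha0⟩ := h0
  choose! g hg1 hg2 using hs
  let s : ℕ → α := fun n => Nat.rec a0 (fun k a => g k a) n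
  have hP : ∀ n, P n (s n) := by
    intro n
    induction n with
    | zero => exact ha0
    | succ k ih => exact hg1 k (s k) ih
  exact ⟨s, hP, fun n => hg2 n (s n) (hP n)⟩

theorem not_countable_nat_bool : ¬ Countable (ℕ → Bool) := by
  intro h
  obtain ⟨e, he⟩ := exists_surjective_nat (ℕ → Bool)
  obtain ⟨n, hn⟩ := he (fun n => !(e n n))
  have := congrFun hn n
  simp at this

theorem not_countable_nat_nat : ¬ Countable (ℕ → ℕ) := by
  intro h
  obtain ⟨e, he⟩ := exists_surjective_nat (ℕ → ℕ)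
  obtain ⟨n, hn⟩ := he (fun n => e n n + 1)
  have := congrFun hn n
  simp at this

section Reflection

variable {X : Type*} [TopologicalSpace X] [PolishSpace X] [MeasurableSpace X] [BorelSpace X]
  {Z : Type*} [TopologicalSpace Z] [T2Space Z]

/-- Points of the space having a different point of `S` in the same fibre of `f`. -/
def otherFib (f : X → Z) (S : Set X) : Set X := {x | ∃ y ∈ S, y ≠ x ∧ f y = f x}

theorem analyticSet_otherFib {f : X → Z} (hf : Continuous f) {S : Set X} (hS : AnalyticSet S) :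
    AnalyticSet (otherFib f S) := by
  have h1 : AnalyticSet {p : X × X | p.2 ∈ S} := hS.preimage continuous_snd
  have h2 : AnalyticSet {p : X × X | p.2 ≠ p.1} := by
    have : IsOpen {p : X × X | p.2 ≠ p.1} := isOpen_ne_fun continuous_snd continuous_fst
    exact this.measurableSet.analyticSet
  have h3 : AnalyticSet {p : X × X | f p.2 = f p.1} :=
    (isClosed_eq (hf.comp continuous_snd) (hf.comp continuous_fst)).analyticSet
  have h4 : AnalyticSet (⋂ i : Fin 3, (![{p : X × X | p.2 ∈ S}, {p : X × X | p.2 ≠ p.1},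
      {p : X × X | f p.2 = f p.1}] i)) := by
    apply AnalyticSet.iInter
    intro i
    fin_cases i
    · exact h1
    · exact h2
    · exact h3
  have h5 := h4.image_of_continuous (continuous_fst : Continuous (Prod.fst : X × X → X))
  convert h5 using 1
  ext x
  simp only [otherFib, mem_ofPred_eq, mem_image, mem_iInter, Prod.exists, exists_and_right,
    exists_eq_right, Fin.forall_fin_succ, Matrix.cons_val_zero, Matrix.cons_val_succ]
  constructor
  · rintro ⟨y, h1, h2, h3⟩
    exact ⟨y, h1, h2, h3, fun i => i.elim0⟩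
  · rintro ⟨y, h1, h2, h3, -⟩
    exact ⟨y, h1, h2, h3⟩

/-- First reflection: an analytic set on which `f` is injective is contained in a Borel set on
which `f` is injective. -/
theorem exists_measurable_injOn {f : X → Z} (hf : Continuous f) {A : Set X} (hA : AnalyticSet A)
    (hinj : InjOn f A) : ∃ B, A ⊆ B ∧ MeasurableSet B ∧ InjOn f B := by
  have d1 : Disjoint A (otherFib f A) := by
    rw [Set.disjoint_left]
    rintro x hx ⟨y, hy, hne, he⟩
    exact hne (hinj hy hx he)
  obtain ⟨B0, hAB0, hd0, hB0⟩ := hA.measurablySeparable (analyticSet_otherFib hf hA) d1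
  have d2 : Disjoint A (otherFib f B0) := by
    rw [Set.disjoint_left]
    rintro x hx ⟨y, hy, hne, he⟩
    exact Set.disjoint_left.1 hd0 ⟨x, hx, hne.symm, he.symm⟩ hy
  obtain ⟨B1, hAB1, hd1, hB1⟩ :=
    hA.measurablySeparable (analyticSet_otherFib hf hB0.analyticSet) d2
  refine ⟨B0 ∩ B1, subset_inter hAB0 hAB1, hB0.inter hB1, ?_⟩
  rintro x ⟨hx0, hx1⟩ y ⟨hy0, hy1⟩ he
  by_contra hne
  exact Set.disjoint_left.1 hd1 ⟨y, hy0, fun h => hne h.symm, he.symm⟩ hx1

end Reflection

section Small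

variable {X : Type*} [MeasurableSpace X] {Z : Type*}

/-- `S` is covered by countably many Borel sets on which `f` is injective. -/
def Small (f : X → Z) (S : Set X) : Prop :=
  ∃ B : ℕ → Set X, (∀ n, MeasurableSet (B n)) ∧ (∀ n, InjOn f (B n)) ∧ S ⊆ ⋃ n, B n

theorem Small.mono {f : X → Z} {S T : Set X} (hT : Small f T) (h : S ⊆ T) : Small f S := by
  obtain ⟨B, h1, h2, h3⟩ := hT
  exact ⟨B, h1, h2, h.trans h3⟩

theorem small_of_injOn {f : X → Z} {B : Set X} (hB : MeasurableSet B) (h : InjOn f B) :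
    Small f B := ⟨fun _ => B, fun _ => hB, fun _ => h, fun _ hx => mem_iUnion.2 ⟨0, hx⟩⟩

theorem small_iUnion {ι : Type*} [Countable ι] {f : X → Z} {S : ι → Set X}
    (h : ∀ i, Small f (S i)) : Small f (⋃ i, S i) := by
  classical
  rcases isEmpty_or_nonempty ι with hι | hι
  · exact ⟨fun _ => ∅, fun _ => MeasurableSet.empty, fun _ => injOn_empty _, by simp⟩
  choose B h1 h2 h3 using h
  obtain ⟨e, he⟩ := exists_surjective_nat (ι × ℕ)
  refine ⟨fun n => B (e n).1 (e n).2, fun n => h1 _ _, fun n => h2 _ _, ?_⟩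
  intro x hx
  obtain ⟨i, hi⟩ := mem_iUnion.1 hx
  obtain ⟨n, hn⟩ := mem_iUnion.1 (h3 i hi)
  obtain ⟨m, hm⟩ := he (i, n)
  exact mem_iUnion.2 ⟨m, by simpa [hm] using hn⟩

theorem Small.union {f : X → Z} {S T : Set X} (hS : Small f S) (hT : Small f T) :
    Small f (S ∪ T) := by
  rw [union_eq_iUnion]
  apply small_iUnion
  intro b
  cases b
  · exact hT
  · exact hS

/-- A family of sets `V 0, ..., V n` is dead when a Borel small set meets every configuration of
points `x k ∈ V k` lying in one fibre of `f`. -/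
def Dead (f : X → Z) (n : ℕ) (V : Fin (n + 1) → Set X) : Prop :=
  ∃ S, MeasurableSet S ∧ Small f S ∧ ∀ x : Fin (n + 1) → X, (∀ k, x k ∈ V k) →
    (∀ k, f (x k) = f (x 0)) → ∃ k, x k ∈ S

theorem Dead.mono {f : X → Z} {n : ℕ} {V W : Fin (n + 1) → Set X} (hV : Dead f n V)
    (h : ∀ k, W k ⊆ V k) : Dead f n W := by
  obtain ⟨S, h1, h2, h3⟩ := hV
  exact ⟨S, h1, h2, fun x hx he => h3 x (fun k => h k (hx k)) he⟩

end Small

section Alive

variable {X : Type*} [TopologicalSpace X] [MeasurableSpace X] {Z : Type*}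

/-- A configuration `x 0, ..., x n` in one fibre of `f` all of whose neighbourhoods are not dead. -/
def AlivePt (f : X → Z) (n : ℕ) (x : ℕ → X) : Prop :=
  (∀ k ≤ n, f (x k) = f (x 0)) ∧ ∀ V : Fin (n + 1) → Set X, (∀ k, IsOpen (V k)) →
    (∀ k : Fin (n + 1), x k ∈ V k) → ¬ Dead f n V

theorem exists_small_not_alive [SecondCountableTopology X] (f : X → Z) (n : ℕ) :
    ∃ S, MeasurableSet S ∧ Small f S ∧ ∀ x : ℕ → X, (∀ k ≤ n, f (x k) = f (x 0)) →
      ¬ AlivePt f n x → ∃ k ≤ n, x k ∈ S := by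
  classical
  let I := {V : Fin (n + 1) → countableBasis X // Dead f n (fun k => (V k : Set X))}
  have hI : Countable I := by
    have : Countable (countableBasis X) := (countable_countableBasis X).to_subtype
    infer_instance
  choose S hS1 hS2 hS3 using fun V : I => V.2
  refine ⟨⋃ V, S V, MeasurableSet.iUnion hS1, small_iUnion hS2, ?_⟩
  intro x hx hal
  have : ∃ V : Fin (n + 1) → Set X, (∀ k, IsOpen (V k)) ∧ (∀ k : Fin (n + 1), x k ∈ V k) ∧
      Dead f n V := by
    by_contra hcon
    apply hal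
    refine ⟨hx, fun V h1 h2 h3 => hcon ⟨V, h1, h2, h3⟩⟩
  obtain ⟨V, hV1, hV2, hV3⟩ := this
  choose W hW1 hW2 hW3 using fun k : Fin (n + 1) =>
    (isBasis_countableBasis X).exists_subset_of_mem_open (hV2 k) (hV1 k)
  let W' : I := ⟨fun k => ⟨W k, hW1 k⟩, hV3.mono hW3⟩
  obtain ⟨k, hk⟩ := hS3 W' (fun k => x k) (fun k => hW2 k) (fun k => by
    have := hx k (Nat.lt_succ_iff.1 k.2)
    simpa using this)
  exact ⟨k, Nat.lt_succ_iff.1 k.2, mem_iUnion.2 ⟨W', hk⟩⟩

end Alive

section Step

variable {X : Type*} [MetricSpace X] [CompleteSpace X] [SecondCountableTopology X]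
  [MeasurableSpace X] [BorelSpace X] {Z : Type*} [TopologicalSpace Z] [T2Space Z]

theorem alive_step {f : X → Z} (hf : Continuous f) (n : ℕ) (x : ℕ → X) (hx : AlivePt f n x)
    (r : ℝ) (hr : 0 < r) (i : ℕ) (hi : i ≤ n) :
    ∃ x' : ℕ → X, AlivePt f (n + 1) x' ∧ (∀ k ≤ n, dist (x' k) (x k) < r) ∧
      dist (x' (n + 1)) (x i) < r ∧ x' (n + 1) ≠ x' i := by
  classical
  by_contra hcon
  obtain ⟨S, hSm, hSs, hS⟩ := exists_small_not_alive f (n + 1)
  let i' : Fin (n + 1) := ⟨i, Nat.lt_succ_iff.2 hi⟩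
  let Cfg : Set (Fin (n + 1) → X) :=
    {y | (∀ k : Fin (n + 1), y k ∈ Metric.ball (x k) r) ∧ (∀ k, y k ∉ S) ∧ ∀ k, f (y k) = f (y 0)}
  have hCfg : MeasurableSet Cfg := by
    have e : Cfg = (⋂ k : Fin (n + 1), {y : Fin (n + 1) → X | y k ∈ Metric.ball (x k) r}) ∩
        ((⋂ k : Fin (n + 1), {y : Fin (n + 1) → X | y k ∈ Sᶜ}) ∩
        (⋂ k : Fin (n + 1), {y : Fin (n + 1) → X | f (y k) = f (y 0)})) := by
      ext y
      simp [Cfg]
    rw [e]
    refine (MeasurableSet.iInter fun k => ?_).inter ((MeasurableSet.iInter fun k => ?_).inter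
      (MeasurableSet.iInter fun k => ?_))
    · exact (measurable_pi_apply k) Metric.isOpen_ball.measurableSet
    · exact (measurable_pi_apply k) hSm.compl
    · exact (isClosed_eq (hf.comp (continuous_apply k))
        (hf.comp (continuous_apply 0))).measurableSet
  have hA : AnalyticSet ((fun y : Fin (n + 1) → X => y i') '' Cfg) :=
    hCfg.analyticSet.image_of_continuous (continuous_apply i')
  have hinj : InjOn f ((fun y : Fin (n + 1) → X => y i') '' Cfg) := by
    rintro _ ⟨y, ⟨hy1, hy2, hy3⟩, rfl⟩ _ ⟨z, ⟨hz1, hz2, hz3⟩, rfl⟩ he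
    by_contra hne
    simp only at he hne
    let x' : ℕ → X := fun k => if h : k < n + 1 then y ⟨k, h⟩ else z i'
    have hx'1 : ∀ k (hk : k < n + 1), x' k = y ⟨k, hk⟩ := fun k hk => dif_pos hk
    have hx'2 : x' (n + 1) = z i' := dif_neg (lt_irrefl _)
    have hfx' : ∀ k ≤ n + 1, f (x' k) = f (x' 0) := by
      intro k hk
      rw [hx'1 0 (Nat.succ_pos n)]
      rcases Nat.lt_or_ge k (n + 1) with h | h
      · rw [hx'1 k h]
        exact hy3 _
      · have : k = n + 1 := le_antisymm hk h
        rw [this, hx'2, ← he]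
        exact hy3 _
    have hnal : ¬ AlivePt f (n + 1) x' := by
      intro hal
      apply hcon
      refine ⟨x', hal, ?_, ?_, ?_⟩
      · intro k hk
        rw [hx'1 k (Nat.lt_succ_iff.2 hk)]
        exact hy1 ⟨k, Nat.lt_succ_iff.2 hk⟩
      · rw [hx'2]
        exact hz1 i'
      · rw [hx'2, hx'1 i (Nat.lt_succ_iff.2 hi)]
        exact fun h => hne h.symm
    obtain ⟨k, hk, hkS⟩ := hS x' hfx' hnal
    rcases Nat.lt_or_ge k (n + 1) with h | h
    · rw [hx'1 k h] at hkS
      exact hy2 _ hkS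
    · have : k = n + 1 := le_antisymm hk h
      rw [this, hx'2] at hkS
      exact hz2 _ hkS
  obtain ⟨B, hAB, hBm, hBi⟩ := exists_measurable_injOn hf hA hinj
  refine hx.2 (fun k => Metric.ball (x k) r) (fun k => Metric.isOpen_ball)
    (fun k => Metric.mem_ball_self hr) ⟨S ∪ B, hSm.union hBm, hSs.union (small_of_injOn hBm hBi), ?_⟩
  intro y hy1 hy2
  by_contra hno
  push Not at hno
  have hyC : y ∈ Cfg := ⟨hy1, fun k h => hno k (Or.inl h), hy2⟩
  exact hno i' (Or.inr (hAB ⟨y, hyC, rfl⟩))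


omit [CompleteSpace X] [SecondCountableTopology X] [MeasurableSpace X] [BorelSpace X] in
theorem exists_closedBall_subset_eventually {x : X} {U : Set X} (hU : U ∈ 𝓝 x) :
    ∀ᶠ r in 𝓝[>] (0 : ℝ), Metric.closedBall x r ⊆ U := by
  obtain ⟨ε, hε, h⟩ := Metric.nhds_basis_closedBall.mem_iff.1 hU
  filter_upwards [Ioo_mem_nhdsGT hε] with r hr
  exact (Metric.closedBall_subset_closedBall hr.2.le).trans h

omit [CompleteSpace X] [SecondCountableTopology X] [MeasurableSpace X] [BorelSpace X] in
theorem exists_closedBall_disjoint_eventually {x y : X} (h : x ≠ y) :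
    ∀ᶠ r in 𝓝[>] (0 : ℝ), Disjoint (Metric.closedBall x r) (Metric.closedBall y r) := by
  have hd : 0 < dist x y / 2 := by
    have := dist_pos.2 h
    linarith
  filter_upwards [Ioo_mem_nhdsGT hd] with r hr
  apply Metric.closedBall_disjoint_closedBall
  have := hr.2
  linarith

/-- Lusin-Novikov for continuous maps: a continuous map with countable fibres is injective on each
of countably many Borel sets covering the space. -/
theorem small_univ_of_continuous {f : X → Z} (hf : Continuous f)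
    (hfib : ∀ x, {y | f y = f x}.Countable) : Small f (univ : Set X) := by
  classical
  by_contra hns
  let ix : ℕ → ℕ := fun n => (Nat.unpair n).1
  have hix : ∀ n, ix n ≤ n := fun n => Nat.unpair_left_le n
  -- states
  let P : ℕ → (ℕ → X) × ℝ → Prop := fun n p => AlivePt f n p.1 ∧ 0 < p.2 ∧ p.2 ≤ (1 / 2) ^ n
  let R : ℕ → (ℕ → X) × ℝ → (ℕ → X) × ℝ → Prop := fun n p q =>
    (∀ k ≤ n, Metric.closedBall (q.1 k) q.2 ⊆ Metric.ball (p.1 k) p.2) ∧
    Metric.closedBall (q.1 (n + 1)) q.2 ⊆ Metric.ball (p.1 (ix n)) p.2 ∧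
    Disjoint (Metric.closedBall (q.1 (n + 1)) q.2) (Metric.closedBall (q.1 (ix n)) q.2)
  have h0 : ∃ a, P 0 a := by
    obtain ⟨S, hSm, hSs, hS⟩ := exists_small_not_alive f 0
    have : ∃ x, x ∉ S := by
      by_contra hcon
      push Not at hcon
      exact hns (hSs.mono fun x _ => hcon x)
    obtain ⟨x, hx⟩ := this
    refine ⟨(fun _ => x, 1), ?_, one_pos, by norm_num⟩
    by_contra hal
    obtain ⟨k, _, hk⟩ := hS (fun _ => x) (fun _ _ => rfl) hal
    exact hx hk
  have hs : ∀ n a, P n a → ∃ b, P (n + 1) b ∧ R n a b := by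
    rintro n ⟨x, r⟩ ⟨hal, hr, hrn⟩
    obtain ⟨x', hal', hd, hd', hne⟩ := alive_step hf n x hal r hr (ix n) (hix n)
    have e1 : ∀ᶠ t in 𝓝[>] (0 : ℝ), ∀ k ∈ Finset.range (n + 1),
        Metric.closedBall (x' k) t ⊆ Metric.ball (x k) r := by
      rw [Filter.eventually_all_finset]
      intro k hk
      apply exists_closedBall_subset_eventually
      exact Metric.isOpen_ball.mem_nhds (hd k (Nat.lt_succ_iff.1 (Finset.mem_range.1 hk)))
    have e2 : ∀ᶠ t in 𝓝[>] (0 : ℝ),
        Metric.closedBall (x' (n + 1)) t ⊆ Metric.ball (x (ix n)) r :=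
      exists_closedBall_subset_eventually (Metric.isOpen_ball.mem_nhds hd')
    have e3 := exists_closedBall_disjoint_eventually hne
    have e4 : ∀ᶠ t in 𝓝[>] (0 : ℝ), t ∈ Ioo (0 : ℝ) ((1 / 2) ^ (n + 1)) :=
      Ioo_mem_nhdsGT (by positivity)
    obtain ⟨t, h1, h2, h3, h4⟩ := (e1.and (e2.and (e3.and e4))).exists
    refine ⟨(x', t), ⟨hal', h4.1, h4.2.le⟩, ?_, h2, h3⟩
    intro k hk
    exact h1 k (Finset.mem_range.2 (Nat.lt_succ_iff.2 hk))
  obtain ⟨s, hP, hR⟩ := exists_seq_step P R h0 hs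
  -- nested balls
  have hnest : ∀ k n, k ≤ n → ∀ m, n ≤ m →
      Metric.closedBall ((s m).1 k) (s m).2 ⊆ Metric.closedBall ((s n).1 k) (s n).2 := by
    intro k n hkn m hnm
    induction m, hnm using Nat.le_induction with
    | base => exact Subset.rfl
    | succ m hnm ih =>
      exact ((hR m).1 k (hkn.trans hnm)).trans (Metric.ball_subset_closedBall.trans ih)
  have hlim : ∀ k, ∃ z, ∀ n, k ≤ n → z ∈ Metric.closedBall ((s n).1 k) (s n).2 := by
    intro k
    have hc : CauchySeq fun n => (s (n + k)).1 k := by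
      apply cauchySeq_of_le_geometric (1 / 2) 1 (by norm_num)
      intro n
      have h1 : (s (n + 1 + k)).1 k ∈ Metric.closedBall ((s (n + k)).1 k) (s (n + k)).2 := by
        apply hnest k (n + k) (Nat.le_add_left _ _) (n + 1 + k) (by omega)
        exact Metric.mem_closedBall_self (hP _).2.1.le
      rw [Metric.mem_closedBall, dist_comm] at h1
      refine h1.trans ((hP (n + k)).2.2.trans ?_)
      rw [one_mul]
      exact pow_le_pow_of_le_one (by norm_num) (by norm_num) (Nat.le_add_right _ _)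
    obtain ⟨z, hz⟩ := cauchySeq_tendsto_of_complete hc
    refine ⟨z, fun n hn => ?_⟩
    apply Metric.isClosed_closedBall.mem_of_tendsto hz
    filter_upwards [Filter.eventually_ge_atTop n] with m hm
    apply hnest k n hn (m + k) (by omega)
    exact Metric.mem_closedBall_self (hP _).2.1.le
  choose z hz using hlim
  have hr0 : Filter.Tendsto (fun n => (s n).2) Filter.atTop (𝓝 0) := by
    apply squeeze_zero (fun n => (hP n).2.1.le) (fun n => (hP n).2.2)
    exact tendsto_pow_atTop_nhds_zero_of_lt_one (by norm_num) (by norm_num)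
  have hconv : ∀ k, Filter.Tendsto (fun n => (s n).1 k) Filter.atTop (𝓝 (z k)) := by
    intro k
    rw [tendsto_iff_dist_tendsto_zero]
    apply squeeze_zero' (Filter.Eventually.of_forall fun n => dist_nonneg) _ hr0
    filter_upwards [Filter.eventually_ge_atTop k] with n hn
    have := hz k n hn
    rwa [Metric.mem_closedBall, dist_comm] at this
  have hfz : ∀ k, f (z k) = f (z 0) := by
    intro k
    have t1 := (hf.tendsto (z k)).comp (hconv k)
    have t2 := (hf.tendsto (z 0)).comp (hconv 0)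
    apply tendsto_nhds_unique_of_eventuallyEq t1 t2
    filter_upwards [Filter.eventually_ge_atTop k] with n hn
    exact (hP n).1.1 k hn
  -- the set of limit points has no isolated point
  have hpre : Preperfect (range z) := by
    rw [preperfect_iff_nhds]
    rintro _ ⟨i, rfl⟩ U hU
    obtain ⟨ε, hε, hεU⟩ := Metric.mem_nhds_iff.1 hU
    have hev : ∀ᶠ n in Filter.atTop, (s n).2 < ε / 2 :=
      hr0.eventually_lt_const (half_pos hε)
    obtain ⟨N, hN⟩ := Filter.eventually_atTop.1 hev
    let n := Nat.pair i N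
    have hn : ix n = i := by simp [ix, n]
    have hNn : N ≤ n := Nat.right_le_pair i N
    have hin : i ≤ n := Nat.left_le_pair i N
    have h1 : z (n + 1) ∈ Metric.closedBall ((s (n + 1)).1 (n + 1)) (s (n + 1)).2 :=
      hz (n + 1) (n + 1) le_rfl
    have h2 : z i ∈ Metric.closedBall ((s (n + 1)).1 i) (s (n + 1)).2 :=
      hz i (n + 1) (by omega)
    refine ⟨z (n + 1), ⟨hεU ?_, mem_range_self _⟩, ?_⟩
    · have h3 : z (n + 1) ∈ Metric.ball ((s n).1 i) (s n).2 := by
        have := (hR n).2.1 h1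
        rwa [hn] at this
      have h4 := hz i n hin
      rw [Metric.mem_ball] at h3 ⊢
      rw [Metric.mem_closedBall] at h4
      have h5 := hN n hNn
      calc dist (z (n + 1)) (z i) ≤ dist (z (n + 1)) ((s n).1 i) + dist (z i) ((s n).1 i) :=
            dist_triangle_right _ _ _
        _ < ε := by linarith
    · intro heq
      have := (hR n).2.2
      rw [hn] at this
      exact Set.disjoint_left.1 this h1 (heq ▸ h2)
  have hperf := hpre.perfect_closure
  obtain ⟨φ, hφ1, -, hφ2⟩ := hperf.exists_nat_bool_injection ⟨z 0, subset_closure (mem_range_self _)⟩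
  have hsub : range φ ⊆ {y | f y = f (z 0)} := by
    refine hφ1.trans (closure_minimal ?_ (isClosed_eq hf continuous_const))
    rintro _ ⟨k, rfl⟩
    exact hfz k
  have hc := (hfib (z 0)).mono hsub
  have hcc : Countable (ℕ → Bool) := by
    have : Countable (range φ) := hc.to_subtype
    exact (Equiv.ofInjective φ hφ2).countable_iff.2 this
  exact not_countable_nat_bool hcc

end Step

end Pool.Agent.W_MP_daea50_lc
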